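import Pool.Agent.X293.QS.Sm
import Pool.Agent.X293.SP.Ex

/-!
# Examples

The surfaces `Y ^ 2 = D₀(X) ∏ (X - c_j) + (w + t ^ (n (2 g + 1))) ^ 2`, for constants `c_j`.
-/

set_option autoImplicit false
set_option maxHeartbeats 400000
set_option synthInstance.maxHeartbeats 400000

namespace Pool.Agent.X293.QS

open Polynomial NumberField
open Pool.Agent.Y707.SF
open Pool.Agent.Y707.PC (IsConstSq)
open Pool.Agent.Y707.DK (IsQuadPencil dpoly rs qdisc qdisc_ne rs_ne rs_map)

section ideal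
variable {B : Type} [CommRing B]

/-- `F = q(X) + (w + t ^ N) ^ 2` -/
noncomputable def GG (q : B[X]) (w : B) (N : ℕ) : B[X][X] := q.map C + C ((C w + X ^ N) ^ 2)

theorem dX_GG (q : B[X]) (w : B) (N : ℕ) : derivative (GG q w N) = (derivative q).map C := by
  unfold GG
  rw [derivative_add, derivative_C, add_zero, derivative_map]

theorem dt_GG (q : B[X]) (w : B) (N : ℕ) :
    dt (GG q w N) = C (C ((2 * N : ℕ) : B)) * C X ^ (N - 1) * (C (C w) + C X ^ N) := by
  unfold GG
  rw [dt_add, Pool.Agent.X293.SP.dt_const, zero_add, dt_C, derivative_sq, derivative_add,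
    derivative_C, zero_add, derivative_X_pow]
  simp only [map_mul, map_add, map_pow, Nat.cast_mul, Nat.cast_ofNat, map_ofNat, map_natCast]
  ring

theorem mem_GG {q : B[X]} {w : B} {N : ℕ} (hN : 1 ≤ N) {d0 d1 : B}
    (h0 : C d0 ∈ Ideal.span {q, derivative q})
    (h1 : C d1 ∈ Ideal.span {q + C (w ^ 2), derivative q}) :
    C (C (((2 * N : ℕ) : B) * d0 * d1)) ∈
      Ideal.span {GG q w N, derivative (GG q w N), dt (GG q w N)} := by
  rw [Ideal.mem_span_pair] at h0 h1
  obtain ⟨u, v, huv⟩ := h0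
  obtain ⟨u1, v1, huv1⟩ := h1
  set I := Ideal.span {GG q w N, derivative (GG q w N), dt (GG q w N)} with hI
  have hF : GG q w N ∈ I := Ideal.subset_span (by simp)
  have hFX : derivative (GG q w N) ∈ I := Ideal.subset_span (by simp)
  have hFt : dt (GG q w N) ∈ I := Ideal.subset_span (by simp)
  have e0 : (u.map C) * q.map C + (v.map C) * (derivative q).map C = (C (C d0) : B[X][X]) := by
    rw [← Polynomial.map_mul, ← Polynomial.map_mul, ← Polynomial.map_add, huv, Polynomial.map_C]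
  have e1 : (u1.map C) * (q.map C + C (C w) ^ 2) + (v1.map C) * (derivative q).map C =
      (C (C d1) : B[X][X]) := by
    have e : (q + C (w ^ 2)).map C = (q.map C + C (C w) ^ 2 : B[X][X]) := by
      rw [Polynomial.map_add, Polynomial.map_C, map_pow, map_pow]
    rw [← e, ← Polynomial.map_mul, ← Polynomial.map_mul, ← Polynomial.map_add, huv1,
      Polynomial.map_C]
  have eF : GG q w N = q.map C + (C (C w) + C X ^ N) ^ 2 := by
    unfold GG
    rw [map_pow, map_add, map_pow]
  have ht := dt_GG q w N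
  have hX := dX_GG q w N
  -- `2 N d₀ t ^ (N - 1)` is in the ideal
  have s1 : C (C ((2 * N : ℕ) : B)) * C X ^ (N - 1) * C (C d0) ∈ I := by
    have e : C (C ((2 * N : ℕ) : B)) * C X ^ (N - 1) * C (C d0) =
        (C (C ((2 * N : ℕ) : B)) * C X ^ (N - 1) * u.map C) * GG q w N +
        (C (C ((2 * N : ℕ) : B)) * C X ^ (N - 1) * v.map C) * derivative (GG q w N) -
        (u.map C * (C (C w) + C X ^ N)) * dt (GG q w N) := by
      rw [ht, hX, eF, ← e0]
      ring
    rw [e]
    exact I.sub_mem (I.add_mem (I.mul_mem_left _ hF) (I.mul_mem_left _ hFX)) (I.mul_mem_left _ hFt)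
  have s2 : C (C ((2 * N : ℕ) : B)) * C (C d0) * C X ^ N ∈ I := by
    have e : C (C ((2 * N : ℕ) : B)) * C (C d0) * C X ^ N =
        (C X : B[X][X]) * (C (C ((2 * N : ℕ) : B)) * C X ^ (N - 1) * C (C d0)) := by
      obtain ⟨M, rfl⟩ : ∃ M, N = M + 1 := ⟨N - 1, by omega⟩
      rw [Nat.add_sub_cancel, pow_succ]
      ring
    rw [e]
    exact I.mul_mem_left _ s1
  have e : (C (C (((2 * N : ℕ) : B) * d0 * d1)) : B[X][X]) =
      (u1.map C * C (C ((2 * N : ℕ) : B)) * C (C d0)) * GG q w N +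
      (v1.map C * C (C ((2 * N : ℕ) : B)) * C (C d0)) * derivative (GG q w N) -
      (u1.map C * (2 * C (C w) + C X ^ N)) * (C (C ((2 * N : ℕ) : B)) * C (C d0) * C X ^ N) := by
    rw [C_mul, C_mul, C_mul, C_mul, hX, eF, ← e1]
    ring
  rw [e]
  exact I.sub_mem (I.add_mem (I.mul_mem_left _ hF) (I.mul_mem_left _ hFX)) (I.mul_mem_left _ s2)

theorem atInf_GG {g n : ℕ} {q : B[X]} {w : B} (hn : 1 ≤ n) (hq : q.natDegree ≤ 2 * g + 1)
    (hq1 : q.coeff (2 * g + 1) = 1) :
    atInfinity g n (GG q w (n * (2 * g + 1))) = X ^ (2 * g + 1) + 1 := by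
  have hN : 1 ≤ n * (2 * g + 1) := Nat.mul_pos (by omega) (by omega)
  have hc : (((C w + X ^ (n * (2 * g + 1))) ^ 2 : B[X])).coeff (2 * n * (2 * g + 1)) = 1 := by
    have e : (C w + X ^ (n * (2 * g + 1))) ^ 2 = C (w ^ 2) + C (2 * w) * X ^ (n * (2 * g + 1)) +
        X ^ (2 * n * (2 * g + 1)) := by
      have e1 : (X : B[X]) ^ (2 * n * (2 * g + 1)) = X ^ (n * (2 * g + 1)) * X ^ (n * (2 * g + 1)) := by
        rw [← pow_add]
        congr 1
        ring
      rw [e1, map_pow, map_mul, map_ofNat]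
      ring
    have e2 : 2 * n * (2 * g + 1) = n * (2 * g + 1) + n * (2 * g + 1) := by ring
    rw [e, coeff_add, coeff_add, coeff_C_of_ne_zero (by omega), coeff_C_mul, coeff_X_pow,
      if_neg (by omega), mul_zero, zero_add, zero_add, coeff_X_pow_self]
  have hcoef : ∀ i, ((GG q w (n * (2 * g + 1))).coeff i).coeff (2 * n * (2 * g + 1 - i)) =
      (if i = 2 * g + 1 then 1 else 0) + if i = 0 then 1 else 0 := by
    intro i
    unfold GG
    rw [coeff_add, coeff_map, coeff_add, coeff_C, coeff_C]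
    have e2 : ((if i = 0 then ((C w + X ^ (n * (2 * g + 1))) ^ 2 : B[X]) else 0)).coeff
        (2 * n * (2 * g + 1 - i)) = if i = 0 then 1 else 0 := by
      split_ifs with h0
      · rw [h0, Nat.sub_zero, hc]
      · rw [coeff_zero]
    rw [e2]
    congr 1
    by_cases hi : i = 2 * g + 1
    · rw [if_pos hi, hi, Nat.sub_self, mul_zero, if_pos rfl, hq1]
    · rw [if_neg hi]
      split_ifs with h1
      · have h2 : 2 * g + 1 - i = 0 := by
          rcases Nat.mul_eq_zero.1 h1 with h3 | h3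
          · omega
          · exact h3
        exact coeff_eq_zero_of_natDegree_lt (by omega)
      · rfl
  unfold atInfinity
  rw [Finset.sum_congr rfl fun i _ => by rw [hcoef i]]
  rw [Finset.sum_congr rfl fun i _ => map_add (monomial i) _ _, Finset.sum_add_distrib]
  congr 1
  · rw [Finset.sum_eq_single (2 * g + 1)]
    · rw [if_pos rfl, ← X_pow_eq_monomial]
    · intro i _ hi
      rw [if_neg hi, map_zero]
    · intro h
      exact absurd (Finset.mem_range.2 (by omega)) h
  · rw [Finset.sum_eq_single 0]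
    · rw [if_pos rfl, monomial_zero_left, C_1]
    · intro i _ hi
      rw [if_neg hi, map_zero]
    · intro h
      exact absurd (Finset.mem_range.2 (by omega)) h

/-- the resultant lies in the ideal -/
theorem rs_mem {g : ℕ} {f : B[X]} (hd : f.natDegree ≤ 2 * g + 1) :
    C (rs g f) ∈ Ideal.span {f, derivative f} := by
  have h2 := natDegree_derivative_le f
  obtain ⟨p, q, -, -, h3⟩ := Polynomial.exists_mul_add_mul_eq_C_resultant (m := 2 * g + 1)
    (n := 2 * g) f (derivative f) (by omega) (by omega) (by omega)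
  have h4 : Polynomial.resultant f (derivative f) (2 * g + 1) (2 * g) = rs g f := rfl
  rw [h4] at h3
  rw [Ideal.mem_span_pair]
  exact ⟨p, q, by rw [← h3]; ring⟩

end ideal

section
variable {K : Type} [Field K] [NumberField K] {k l r g n : ℕ}

/-- the constants as functions of `t` -/
noncomputable def exD (k : ℕ) (c : Fin r → 𝓞 K) : Fin r → (MvPolynomial (Fin k) (𝓞 K))[X] :=
  fun j => C (MvPolynomial.C (c j))

/-- `t ^ N` -/
noncomputable def exB (K : Type) [Field K] (k N : ℕ) : (MvPolynomial (Fin k) (𝓞 K))[X][X] :=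
  C (X ^ N)

theorem quadS_ex (D₀ : (𝓞 K)[X]) {B : Type} [CommRing B] (ψ : MvPolynomial (Fin k) (𝓞 K) →+* B)
    (w : B) (c : Fin r → 𝓞 K) (N : ℕ) :
    quadS D₀ (exD k c) (exB K k N) ψ w =
      GG (dpoly D₀ (fun j => (MvPolynomial.C (c j) : MvPolynomial (Fin k) (𝓞 K))) ψ) w N := by
  unfold quadS GG dpoly exD exB
  rw [Polynomial.map_mul, Polynomial.map_map, Polynomial.map_prod, Polynomial.map_C]
  have e1 : ((C.comp ψ).comp MvPolynomial.C : 𝓞 K →+* B[X]) =
      (C : B →+* B[X]).comp (ψ.comp MvPolynomial.C) := rfl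
  have e2 : (∏ j, (X - C ((C (MvPolynomial.C (c j) : MvPolynomial (Fin k) (𝓞 K))).map ψ)) :
      B[X][X]) = ∏ j, ((X - C (ψ (MvPolynomial.C (c j)))).map C : B[X][X]) := by
    refine Finset.prod_congr rfl fun j _ => ?_
    rw [Polynomial.map_sub, Polynomial.map_X, Polynomial.map_C, Polynomial.map_C]
  have e3 : (mapRingHom ψ) (X ^ N : (MvPolynomial (Fin k) (𝓞 K))[X]) = X ^ N := by
    rw [coe_mapRingHom, Polynomial.map_pow, Polynomial.map_X]
  rw [e1, e2, e3, ← map_add, ← map_pow]

theorem exists_consts {D₀ : (𝓞 K)[X]} (hm : D₀.Monic) (r : ℕ) :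
    ∃ c : Fin r → 𝓞 K, Function.Injective c ∧ ∀ j, D₀.eval (c j) ≠ 0 := by
  classical
  have h := (D₀.roots.toFinset.finite_toSet).infinite_compl
  let e := Set.Infinite.natEmbedding _ h
  refine ⟨fun j => (e (j : ℕ) : 𝓞 K), fun i j hij => Fin.ext (e.injective (Subtype.ext hij)),
    fun j h0 => ?_⟩
  have h1 := (e (j : ℕ)).2
  apply h1
  rw [Finset.mem_coe, Multiset.mem_toFinset, mem_roots hm.ne_zero]
  exact h0

theorem sep_consts {D₀ : (𝓞 K)[X]} (hs : (D₀.map (algebraMap (𝓞 K) K)).Separable)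
    {c : Fin r → 𝓞 K} (hc : Function.Injective c) (h0 : ∀ j, D₀.eval (c j) ≠ 0) :
    ((D₀ * ∏ j, (X - C (c j))).map (algebraMap (𝓞 K) K)).Separable := by
  have hinj : Function.Injective (algebraMap (𝓞 K) K) := IsFractionRing.injective (𝓞 K) K
  rw [Polynomial.map_mul, Polynomial.map_prod]
  have e : ∀ j, (X - C (c j) : (𝓞 K)[X]).map (algebraMap (𝓞 K) K) =
      X - C (algebraMap (𝓞 K) K (c j)) := fun j => by
    rw [Polynomial.map_sub, Polynomial.map_X, Polynomial.map_C]
  simp only [e]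
  refine Separable.mul hs ?_ ?_
  · rw [separable_prod_X_sub_C_iff]
    exact hinj.comp hc
  · refine IsCoprime.prod_right fun j _ => ?_
    refine IsCoprime.symm ((irreducible_X_sub_C _).coprime_iff_not_dvd.2 fun h => ?_)
    rw [dvd_iff_isRoot, IsRoot.def, eval_map_apply, map_eq_zero_iff _ hinj] at h
    exact h0 j h

/-- the polynomials -/
abbrev Ak (K : Type) [Field K] (k : ℕ) : Type := MvPolynomial (Fin k) (𝓞 K)

/-- **The examples.** -/
theorem exampleS (G : Fin l → MvPolynomial (Fin k) (𝓞 K))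
    (hG : ∀ S : Finset (Fin l), S.Nonempty → ¬ IsConstSq (∏ i ∈ S, G i)) (hn : 1 ≤ n)
    {D₀ : (𝓞 K)[X]} (hm : D₀.Monic) (hs : (D₀.map (algebraMap (𝓞 K) K)).Separable)
    (hd : D₀.natDegree + r = 2 * g + 1) :
    ∃ (δ : Fin r → (MvPolynomial (Fin k) (𝓞 K))[X]) (b : (MvPolynomial (Fin k) (𝓞 K))[X][X]),
      IsQuadSurface g n G D₀ δ b := by
  obtain ⟨c, hc, hc0⟩ := exists_consts hm r
  set N := n * (2 * g + 1) with hN
  have hN1 : 1 ≤ N := Nat.mul_pos (by omega) (by omega)
  have hC : Function.Injective (MvPolynomial.C : 𝓞 K →+* (Ak K k)) := MvPolynomial.C_injective _ _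
  have hquad : IsQuadPencil g G D₀ (fun j => (MvPolynomial.C (c j) : (Ak K k))) 0 :=
    { independent := hG
      monic := hm
      separable := hs
      degree := hd
      distinct := fun i j hij => hc (hC hij)
      nonzero := fun j h0 => by
        rw [eval_map_apply, map_eq_zero_iff _ hC] at h0
        exact hc0 j h0
      small := by rw [natDegree_zero]; exact Nat.zero_le _ }
  set q : (Ak K k)[X][X] := dpoly D₀ (fun j => (MvPolynomial.C (c j) : (Ak K k))) (C : (Ak K k) →+* (Ak K k)[X]) with hq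
  have hqd := Pool.Agent.Y707.DK.dpoly_deg (δ := fun j => (MvPolynomial.C (c j) : (Ak K k))) hm hd
    (C : (Ak K k) →+* (Ak K k)[X])
  rw [← hq] at hqd
  -- the family
  have hfam : familyS D₀ (exD k c) (exB K k N) = GG q X N := quadS_ex D₀ C X c N
  -- the elements of the ideals
  set q0 : (𝓞 K)[X] := D₀ * ∏ j, (X - C (c j)) with hq0
  have hq0m : q0.Monic := hm.mul (monic_prod_of_monic _ _ fun i _ => monic_X_sub_C _)
  have hq0d : q0.natDegree = 2 * g + 1 := by
    rw [hq0, hm.natDegree_mul (monic_prod_of_monic _ _ fun i _ => monic_X_sub_C _),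
      natDegree_prod_of_monic _ _ fun i _ => monic_X_sub_C _]
    simp only [natDegree_X_sub_C, Finset.sum_const, Finset.card_univ, Fintype.card_fin, smul_eq_mul,
      mul_one]
    exact hd
  have hqq : q0.map ((C : (Ak K k) →+* (Ak K k)[X]).comp MvPolynomial.C) = q := by
    rw [hq0, hq]
    unfold dpoly
    rw [Polynomial.map_mul, Polynomial.map_prod]
    congr 1
    refine Finset.prod_congr rfl fun j _ => ?_
    rw [Polynomial.map_sub, Polynomial.map_X, Polynomial.map_C, RingHom.comp_apply]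
  have hd0 : rs g q0 ≠ 0 := by
    intro h0
    have h1 := rs_map (g := g) q0 (algebraMap (𝓞 K) K)
    rw [h0, map_zero] at h1
    exact rs_ne (by rw [hq0m.natDegree_map, hq0d]) (sep_consts hs hc hc0) h1.symm
  have h0 : C (rs g q) ∈ Ideal.span {q, derivative q} := rs_mem hqd.2.le
  have hrq : rs g q = C (MvPolynomial.C (rs g q0)) := by
    rw [← hqq, ← rs_map]
    rfl
  have hrq0 : rs g q ≠ 0 := by
    rw [hrq, Ne, C_eq_zero, map_eq_zero_iff _ hC]
    exact hd0
  have hΔ0 := qdisc_ne hquad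
  set Δ : (Ak K k)[X] := qdisc g D₀ (fun j => (MvPolynomial.C (c j) : (Ak K k))) 0 with hΔ
  have h1 : C Δ ∈ Ideal.span {q + C ((X : (Ak K k)[X]) ^ 2), derivative q} := by
    have e1 : Pool.Agent.Y707.DK.quad D₀ (fun j => (MvPolynomial.C (c j) : (Ak K k))) 0
        (C : (Ak K k) →+* (Ak K k)[X]) X = q + C ((X : (Ak K k)[X]) ^ 2) := by
      unfold Pool.Agent.Y707.DK.quad
      rw [Polynomial.map_zero, add_zero, ← map_pow]
    have e2 : derivative (q + C ((X : (Ak K k)[X]) ^ 2)) = derivative q := by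
      rw [derivative_add, derivative_C, add_zero]
    have h2 := rs_mem (g := g) (f := q + C ((X : (Ak K k)[X]) ^ 2)) (by
      refine (natDegree_add_le _ _).trans (max_le hqd.2.le ?_)
      rw [natDegree_C]
      exact Nat.zero_le _)
    rw [e2, ← e1] at h2
    rw [← e1]
    exact h2
  refine ⟨exD k c, exB K k N, hG, hn, hm, hs, hd, ?_, ?_, ?_, ?_, ?_, ?_⟩
  · intro j
    unfold exD
    rw [natDegree_C]
    exact Nat.zero_le _
  · intro i j hij
    exact hc (hC (C_injective hij))
  · intro j h0'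
    have e : (exD k c j : (Ak K k)[X]) = (C.comp (MvPolynomial.C : 𝓞 K →+* (Ak K k))) (c j) := rfl
    rw [e, eval_map_apply, RingHom.comp_apply, C_eq_zero, map_eq_zero_iff _ hC] at h0'
    exact hc0 j h0'
  · unfold exB
    rw [natDegree_C]
    exact Nat.zero_le _
  · intro i hi
    unfold exB
    rw [coeff_C]
    by_cases h0' : i = 0
    · rw [if_pos h0', natDegree_X_pow, h0']
      omega
    · rw [if_neg h0', natDegree_zero, zero_add]
      have : 2 * i ≤ 2 * g + 1 := by omega
      calc 2 * n * i = n * (2 * i) := by ring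
        _ ≤ n * (2 * g + 1) := Nat.mul_le_mul_left _ this
  · refine ⟨C (((2 * g + 1 : ℕ) : (Ak K k))) * (((2 * N : ℕ) : (Ak K k)[X]) * rs g q * Δ), ?_, ?_, ?_⟩
    · refine mul_ne_zero ?_ (mul_ne_zero (mul_ne_zero ?_ hrq0) hΔ0)
      · rw [Ne, C_eq_zero]
        exact Nat.cast_ne_zero.2 (by omega)
      · exact Nat.cast_ne_zero.2 (by omega)
    · rw [hfam]
      have h3 := mem_GG (w := (X : (Ak K k)[X])) hN1 h0 h1
      have h4 : (C (C (C (((2 * g + 1 : ℕ) : (Ak K k))) * (((2 * N : ℕ) : (Ak K k)[X]) * rs g q * Δ))) :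
          (Ak K k)[X][X][X]) = C (C (C (((2 * g + 1 : ℕ) : (Ak K k))))) *
            C (C (((2 * N : ℕ) : (Ak K k)[X]) * rs g q * Δ)) := by
        rw [← C_mul, ← C_mul]
      rw [h4]
      exact Ideal.mul_mem_left _ _ h3
    · rw [hfam, hN, atInf_GG hn hqd.2.le (by rw [← hqd.2]; exact hqd.1)]
      have h3 := Pool.Agent.X293.SP.inf_mem (B := (Ak K k)[X]) g
      have h4 : (C (((2 * g + 1 : ℕ) : (Ak K k))) : (Ak K k)[X]) = ((2 * g + 1 : ℕ) : (Ak K k)[X]) := map_natCast C _
      rw [C_mul]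
      refine Pool.Agent.X293.SP.mulr ?_
      exact h4.symm ▸ h3

end

end Pool.Agent.X293.QS
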