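import Pool.Agent.X293.QS.An
import Pool.Agent.Y707.DK.Res

/-! **The averages and the residue.** -/

set_option autoImplicit false
set_option maxHeartbeats 400000

namespace Pool.Agent.X293.QS

open Polynomial Finset NumberField IsDedekindDomain Filter
open Pool.Agent.Y707.PC Pool.Agent.Y707.SF
open Pool.Agent.Y707.DK (IsQuadPencil memberQuad traceOne dpoly nr dd numFactors nrv nr_le nrv_le
  nr_base map_base residue_nr)
open Pool.Agent.Y707.PR (HasResidue)
open Pool.Agent.H921R2.TatePole (nm two_le_nm)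

theorem arith3 {q s qk S X B0 c m M : ℝ} (hq : 0 < q) (hs : 1 ≤ s) (hsq : s ^ 2 = q)
    (hqk : 0 < qk) (hm : |m| ≤ M) (h1 : |S - m * q ^ 2 * X| ≤ c * (q * s) * qk)
    (h2 : |X - qk| * s ≤ B0 * qk) :
    |(qk * q)⁻¹ * S - q * m| ≤ (c + M * B0) * s := by
  have e : (qk * q)⁻¹ * S - q * m =
      (qk * q)⁻¹ * ((S - m * q ^ 2 * X) + m * q ^ 2 * (X - qk)) := by
    field_simp
    ring
  have hpos : 0 < qk * q := by positivity
  have hM : 0 ≤ M := (abs_nonneg _).trans hm
  rw [e, _root_.abs_mul, abs_of_pos (inv_pos.2 hpos), inv_mul_le_iff₀ hpos]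
  refine (abs_add_le _ _).trans ((add_le_add h1 (?_ : _ ≤ M * (q * (B0 * qk * s)))).trans
    (le_of_eq ?_))
  · rw [_root_.abs_mul, _root_.abs_mul, abs_of_pos (by positivity : (0 : ℝ) < q ^ 2)]
    have h3 := mul_le_mul_of_nonneg_right h2 (by linarith : (0 : ℝ) ≤ s)
    have h4 : |X - qk| * s * s = |X - qk| * q := by rw [← hsq]; ring
    rw [h4] at h3
    have h5 := mul_le_mul_of_nonneg_left h3 hq.le
    have h6 : |m| * (q ^ 2 * |X - qk|) ≤ M * (q ^ 2 * |X - qk|) :=
      mul_le_mul_of_nonneg_right hm (by positivity)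
    have h7 := mul_le_mul_of_nonneg_left h5 hM
    calc |m| * q ^ 2 * |X - qk| = |m| * (q ^ 2 * |X - qk|) := by ring
      _ ≤ M * (q ^ 2 * |X - qk|) := h6
      _ = M * (q * (|X - qk| * q)) := by ring
      _ ≤ _ := h7
  · ring

section
variable {K : Type} [Field K] [NumberField K] {k l r g n : ℕ}
  {G : Fin l → MvPolynomial (Fin k) (𝓞 K)}
  {D₀ : (𝓞 K)[X]} {δ : Fin r → (MvPolynomial (Fin k) (𝓞 K))[X]}
  {b : (MvPolynomial (Fin k) (𝓞 K))[X][X]}

/-- **The averages.** -/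
theorem averageS_asy (h : IsQuadSurface g n G D₀ δ b) : ∃ (B : ℝ) (c : 𝓞 K), 0 ≤ B ∧ c ≠ 0 ∧
    ∀ (κ : Type) [Field κ] [Fintype κ] (φ : 𝓞 K →+* κ), φ c ≠ 0 →
      |averageS g n G D₀ δ b φ - Fintype.card κ * ((nr D₀ φ : ℝ) + r + 1)| ≤
        B * Real.sqrt (Fintype.card κ) := by
  classical
  obtain ⟨D, hD0, hD1, hD2⟩ := h.smooth
  set N : MvPolynomial (Fin k) (𝓞 K) := (∏ i, G i) * (D.leadingCoeff * (P2 D₀ δ).leadingCoeff)
    with hN
  have hG : ∀ i, G i ≠ 0 := ne_of_ind h.independent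
  have hN0 : N ≠ 0 := mul_ne_zero (prod_ne_zero_iff.2 fun i _ => hG i)
    (mul_ne_zero (leadingCoeff_ne_zero.2 hD0) (leadingCoeff_ne_zero.2 (P2_ne h)))
  obtain ⟨Dg, c, hDg, hc, hfam⟩ := fam_sum hN0
  obtain ⟨B0, c0, hB0, hc0, hnx⟩ := sum_nx h.independent
  set c1 : ℝ := 2 ^ l * ((P2 D₀ δ).natDegree * (2 * g + 1) + 2 * g + D.natDegree * (4 * g + 2))
    with hc1
  set c2 : ℝ := 2 ^ l * (6 * g + 4) with hc2
  have hc10 : 0 ≤ c1 := by positivity
  have hc20 : 0 ≤ c2 := by positivity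
  refine ⟨c1 + c2 * Dg + (2 * g + 2) * B0, 2 * (c * c0), by positivity,
    mul_ne_zero two_ne_zero (mul_ne_zero hc hc0), ?_⟩
  intro κ _ _ φ hφ
  rw [map_mul, map_mul, map_ofNat] at hφ
  have h20 : (2 : κ) ≠ 0 := left_ne_zero_of_mul hφ
  have h2 : ringChar κ ≠ 2 := ringChar_of_two h20
  obtain ⟨hr1, hr2, hr3⟩ := sqrt_facts κ
  have hq : (0 : ℝ) < Fintype.card κ := by exact_mod_cast Fintype.card_pos (α := κ)
  set s := Real.sqrt (Fintype.card κ) with hs
  set q : ℝ := (Fintype.card κ : ℝ) with hqd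
  set m : ℝ := (nr D₀ φ : ℝ) + r + 1 with hm
  have hm0 : 0 ≤ m := by positivity
  have hmb : |m| ≤ 2 * g + 2 := by
    have h3 : (nr D₀ φ : ℝ) ≤ D₀.natDegree := by exact_mod_cast nr_le h.monic φ
    have h4 : (D₀.natDegree : ℝ) + r = 2 * g + 1 := by exact_mod_cast h.degree
    rw [abs_of_nonneg hm0, hm]
    linarith
  set T : (Fin k → κ) → ℝ := fun x =>
    (if ∀ i, MvPolynomial.eval₂Hom φ x (G i) ≠ 0 then nx G φ x * smS g n D₀ δ b φ x else 0) -
    m * q ^ 2 * nx G φ x with hT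
  have hnn : ∀ x, 0 ≤ nx G φ x := fun x => (nx_bd φ x).1
  have h1 := hfam κ φ (left_ne_zero_of_mul (right_ne_zero_of_mul hφ)) T (c1 * (q * s))
    (c2 * (q * s)) (by positivity) (by positivity) (by
      intro x hx
      rw [hN, map_mul, map_mul, map_prod] at hx
      have hG' : ∀ i, MvPolynomial.eval₂Hom φ x (G i) ≠ 0 := fun i =>
        prod_ne_zero_iff.1 (left_ne_zero_of_mul hx) i (mem_univ i)
      have h5 := local_smallS h h2 φ hD1 hD2 x
        (map_ne (left_ne_zero_of_mul (right_ne_zero_of_mul hx)))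
        (map_ne (right_ne_zero_of_mul (right_ne_zero_of_mul hx)))
      have e : T x = nx G φ x * (smS g n D₀ δ b φ x - m * q ^ 2) := by
        simp only [hT]
        rw [if_pos hG']
        ring
      rw [e, _root_.abs_mul, abs_of_nonneg (hnn x), hc1, mul_assoc]
      exact mul_le_mul (nx_bd φ x).2 h5 (abs_nonneg _) (by positivity)) (by
      intro x
      have h5 := local_largeS h h2 φ x
      have h6 : |T x| ≤ nx G φ x * (|smS g n D₀ δ b φ x| + m * q ^ 2) := by
        simp only [hT]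
        have h7 : |m * q ^ 2 * nx G φ x| = nx G φ x * (m * q ^ 2) := by
          rw [abs_of_nonneg (mul_nonneg (by positivity) (hnn x)), mul_comm]
        by_cases hG' : ∀ i, MvPolynomial.eval₂Hom φ x (G i) ≠ 0
        · rw [if_pos hG']
          refine (abs_sub _ _).trans ?_
          rw [h7, _root_.abs_mul, abs_of_nonneg (hnn x)]
          refine le_of_eq ?_
          ring
        · rw [if_neg hG', zero_sub, abs_neg, h7]
          refine mul_le_mul_of_nonneg_left ?_ (hnn x)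
          have := abs_nonneg (smS g n D₀ δ b φ x)
          linarith
      refine h6.trans ?_
      rw [hc2]
      have h8 := mul_le_mul (nx_bd (G := G) φ x).2 h5 (by positivity) (by positivity)
      refine h8.trans (le_of_eq ?_)
      ring)
  have h3 : ∑ x, T x = ∑ᶠ P ∈ goodS g n G D₀ δ b φ, traceTwo g n (memberS D₀ δ b φ P.1 P.2.2) -
      m * q ^ 2 * ∑ x : Fin k → κ, nx G φ x := by
    rw [sum_goodS φ h2 fun x w => traceTwo g n (memberS D₀ δ b φ x w), mul_sum,
      ← sum_sub_distrib]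
    rfl
  rw [h3] at h1
  have h4 := hnx κ φ (right_ne_zero_of_mul (right_ne_zero_of_mul hφ))
  unfold averageS
  rw [Nat.card_eq_fintype_card, pow_succ _ k]
  refine arith3 (c := c1 + c2 * Dg) hq hr1 hr2 (by positivity) hmb (h1.trans (le_of_eq ?_)) h4
  ring

theorem rankS_pos (h : IsQuadSurface g n G D₀ δ b)
    (E : IntermediateField K (AlgebraicClosure K)) :
    1 ≤ r + numFactors (D₀.map ((algebraMap K E).comp (algebraMap (𝓞 K) K))) :=
  Pool.Agent.Y707.DK.rank_pos (isQuad1 h) E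

/-- **The residue.** -/
theorem surface_residueS (h : IsQuadSurface g n G D₀ δ b)
    (E : IntermediateField K (AlgebraicClosure K)) [NumberField E]
    (R : Finset (HeightOneSpectrum (𝓞 E))) :
    HasResidue R (fun v => averageS g n G D₀ δ b
      ((Ideal.Quotient.mk v.asIdeal).comp (algebraMap (𝓞 K) (𝓞 E)))) 2 (rankS r D₀ E + 2) := by
  classical
  obtain ⟨B, c, hB, hc, hasy⟩ := averageS_asy h
  have hm : (D₀.map (algebraMap (𝓞 K) (𝓞 E))).Monic := h.monic.map _
  have hs : ((D₀.map (algebraMap (𝓞 K) (𝓞 E))).map (algebraMap (𝓞 E) E)).Separable := by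
    rw [map_base, ← Polynomial.map_map]
    exact h.separable.map
  set b' : HeightOneSpectrum (𝓞 E) → ℝ := fun v =>
    (nrv (D₀.map (algebraMap (𝓞 K) (𝓞 E))) v : ℝ) with hb'
  set z : HeightOneSpectrum (𝓞 E) → ℝ := fun v => ((r : ℝ) - 1) + b' v with hz
  have hbb : ∀ v, |b' v| ≤ D₀.natDegree := by
    intro v
    have h3 : (nrv (D₀.map (algebraMap (𝓞 K) (𝓞 E))) v : ℝ) ≤ D₀.natDegree := by
      have := nrv_le hm v
      rw [h.monic.natDegree_map] at this
      exact_mod_cast this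
    rw [hb', abs_of_nonneg (Nat.cast_nonneg _)]
    exact h3
  have hzb : ∀ v, |z v| ≤ |(r : ℝ) - 1| + D₀.natDegree := fun v =>
    (abs_add_le _ _).trans (add_le_add le_rfl (hbb v))
  have hae : ∀ᶠ v : HeightOneSpectrum (𝓞 E) in cofinite,
      |averageS g n G D₀ δ b ((Ideal.Quotient.mk v.asIdeal).comp (algebraMap (𝓞 K) (𝓞 E))) -
        nm v * (2 + z v)| ≤ B * Real.sqrt (nm v) := by
    have hc' : algebraMap (𝓞 K) (𝓞 E) c ≠ 0 := by
      intro h0
      exact hc ((map_eq_zero_iff _ (FaithfulSMul.algebraMap_injective (𝓞 K) (𝓞 E))).1 h0)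
    filter_upwards [ae_notMem hc'] with v hv
    have hfin := Pool.Agent.H341R2.finite_v v
    let _ := Fintype.ofFinite (𝓞 E ⧸ v.asIdeal)
    have h3 := hasy (𝓞 E ⧸ v.asIdeal) ((Ideal.Quotient.mk v.asIdeal).comp
      (algebraMap (𝓞 K) (𝓞 E))) (by
        rw [RingHom.comp_apply, Ne, Ideal.Quotient.eq_zero_iff_mem]
        exact hv)
    have e1 : Fintype.card (𝓞 E ⧸ v.asIdeal) = nm v := by
      rw [← Nat.card_eq_fintype_card]
      rfl
    rw [e1] at h3
    have e2 : nrv (D₀.map (algebraMap (𝓞 K) (𝓞 E))) v =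
      nr D₀ ((Ideal.Quotient.mk v.asIdeal).comp (algebraMap (𝓞 K) (𝓞 E))) := nr_base E _
    have e3 : (2 : ℝ) + z v = (nr D₀ ((Ideal.Quotient.mk v.asIdeal).comp
        (algebraMap (𝓞 K) (𝓞 E))) : ℝ) + r + 1 := by
      rw [hz]
      simp only [hb']
      rw [e2]
      ring
    rw [e3]
    exact h3
  obtain ⟨B', hB'⟩ := bound_all hae
  obtain ⟨H, hH, hw⟩ := residue_nr (b := b') (B := 0) hm hs
    (Filter.Eventually.of_forall fun v => by rw [hb', sub_self, abs_zero, zero_mul])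
    hbb ((r : ℤ) + 1) R
  have h4 := rankS_pos h E
  have e4 : (((r : ℤ) + 1 + numFactors ((D₀.map (algebraMap (𝓞 K) (𝓞 E))).map
        (algebraMap (𝓞 E) E)) : ℤ) : ℝ) = (rankS r D₀ E : ℝ) + 2 := by
    rw [map_base]
    unfold rankS
    push_cast [Nat.cast_sub h4]
    ring
  have h5 := residue_two (z := z) hzb hB' R (m := (r : ℤ) + 1 + numFactors
    ((D₀.map (algebraMap (𝓞 K) (𝓞 E))).map (algebraMap (𝓞 E) E))) ⟨H, hH, by
      filter_upwards [hw] with w h1 h2
      rw [← h1 h2]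
      refine tsum_congr fun v => ?_
      congr 2
      split_ifs
      · rfl
      · rw [hz]
        push_cast
        ring⟩
  rw [e4] at h5
  exact h5

end

end Pool.Agent.X293.QS
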