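import Pool.Agent.X293.QS.Sm

/-! **The class group of a quadratic pencil of surfaces.** -/

set_option autoImplicit false
set_option maxHeartbeats 400000

namespace Pool.Agent.X293.QS

open Polynomial Pool.Agent.TH943.HJ Pool.Agent.Y707.PC Pool.Agent.Y707.SF Pool.Agent.Y707.DK
open scoped nonZeroDivisors

section
variable {B : Type} [CommRing B]

/-- the derivatives at a curve `φ = 0` on which `f` is a square -/
theorem smooth_fac {f φ ψ c : B[X][X]} (hf : f = φ * ψ + c * c)
    (hs : (1 : B[X][X]) ∈ Ideal.span {f, derivative f, dt f}) :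
    ∃ x y z : B[X][X], 1 = x * φ + y * c + z * ψ := by
  have hX : derivative f = derivative φ * ψ + φ * derivative ψ + 2 * c * derivative c := by
    rw [hf, derivative_add, derivative_mul, derivative_mul]
    ring
  have ht : dt f = dt φ * ψ + φ * dt ψ + 2 * c * dt c := by
    rw [hf, dt_add, dt_mul, dt_mul]
    ring
  rw [Ideal.mem_span_insert] at hs
  obtain ⟨A₁, z, hz, h2⟩ := hs
  rw [Ideal.mem_span_pair] at hz
  obtain ⟨A₂, A₃, h3⟩ := hz
  refine ⟨A₁ * ψ + A₂ * derivative ψ + A₃ * dt ψ,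
    A₁ * c + A₂ * (2 * derivative c) + A₃ * (2 * dt c), A₂ * derivative φ + A₃ * dt φ, ?_⟩
  rw [h2, ← h3, hX, ht]
  linear_combination A₁ * hf

/-- the ideal of a curve -/
noncomputable def pi3 (f φ c : B[X][X]) : Ideal (SR f) :=
  Ideal.span {pq φ, yq f - pq c}

/-- **The curves are Cartier divisors.** -/
theorem pi3_mul {v : B} (hv : v * 2 = 1) {f φ ψ c : B[X][X]} (hf : f = φ * ψ + c * c)
    (hs : (1 : B[X][X]) ∈ Ideal.span {f, derivative f, dt f}) :
    pi3 f φ c * pi3 f φ (-c) = Ideal.span {pq φ} := by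
  obtain ⟨x, y, z, h1⟩ := smooth_fac hf hs
  have h8 : (yq f - pq c) * (yq f + pq c) = pq φ * pq ψ := by
    have h9 : (pq φ : SR f) * pq ψ = pq f - pq c ^ 2 := by
      rw [← map_mul, ← map_pow, ← map_sub]
      congr 1
      rw [hf]
      ring
    rw [h9, ← yq_sq]
    ring
  have h7 : (1 : SR f) = pq x * pq φ + pq y * pq c + pq z * pq ψ := by
    rw [← map_mul, ← map_mul, ← map_mul, ← map_add, ← map_add, ← h1, map_one]
  have hv' : (pq (C (C v)) : SR f) * 2 = 1 := by
    have h5 : (2 : SR f) = pq (C (C (2 : B))) := by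
      rw [map_ofNat, map_ofNat, map_ofNat]
    rw [h5, ← map_mul, ← C_mul, ← C_mul, hv, C_1, C_1, map_one]
  have h3 : yq f - pq (-c) = yq f + pq c := by
    rw [map_neg, sub_neg_eq_add]
  unfold pi3
  rw [h3]
  exact abs_mul hv' h8 h7

end

section
variable {B L' M' : Type} [Field B] [Field L'] [Field M'] [Algebra M' L'] [Algebra B[X] L']
  [IsFractionRing B[X] L'] {ι : Type} [Fintype ι] {φ' : ι → M'[X]} {b' : M'[X]} {ω : L'}
  {f : B[X][X]} {φB : ι → B[X][X]} {c : B[X][X]}

/-- **The class group of a quadratic pencil of surfaces** is the class group of its generic fibre. -/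
theorem alg_surf2 (h2 : (2 : B) ≠ 0) (hω : Transcendental M' ω)
    (hL : ∀ z : L', ∃ p q : M'[X], aeval ω q ≠ 0 ∧ z * aeval ω q = aeval ω p)
    (hφ : ∀ i, Irreducible (φ' i)) (hm : ∀ i, (φ' i).Monic) (hinj : Function.Injective φ')
    (hD : Odd (∏ i, φ' i).natDegree) (hb : 2 * b'.natDegree < (∏ i, φ' i).natDegree)
    (hsq : Squarefree (gg ω (∏ i, φ' i) b'))
    (hf : f.Monic) (hodd : Odd f.natDegree)
    (hF : gg ω (∏ i, φ' i) b' = f.map (algebraMap B[X] L'))
    (hφB : ∀ i, (φB i).map (algebraMap B[X] L') = up (φ' i))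
    (hc : c.map (algebraMap B[X] L') = cc ω b')
    (hs : (1 : B[X][X]) ∈ Ideal.span {f, derivative f, dt f}) :
    ∃ _ : IsDomain (SR f),
    Module.Free ℤ (Additive (ClassGroup (SR f))) ∧
    Module.Finite ℤ (Additive (ClassGroup (SR f))) ∧
    Module.finrank ℤ (Additive (ClassGroup (SR f))) = Fintype.card ι - 1 := by
  classical
  have hdomA : IsDomain (SR f) := isDomain_SR hf hodd
  refine ⟨hdomA, ?_⟩
  have hodd2 := (deg_gg (ω := ω) hD hb).1
  have hdomD : IsDomain (CR (gg ω (∏ i, φ' i) b')) := isDomain hodd2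
  have h2' : (2 : L') ≠ 0 := by
    have h3 : (2 : L') = algebraMap B[X] L' (C 2) := by
      rw [map_ofNat, map_ofNat]
    rw [h3, Ne, map_eq_zero_iff _ (IsFractionRing.injective B[X] L'), C_eq_zero]
    exact h2
  obtain ⟨k1, k2, k3⟩ := alg_quad h2' hω hL hφ hm hinj hD hb hsq
  have hded : IsDedekindDomain (CR (gg ω (∏ i, φ' i) b')) := dedekind h2' hodd2 hsq
  let ialg : Algebra (SR f) (CR (gg ω (∏ i, φ' i) b')) :=
    (red (algebraMap B[X] L') hF).toAlgebra
  have hloc : IsLocalization (Sm f) (CR (gg ω (∏ i, φ' i) b')) := isLocalization_SR hF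
  have hal : ∀ z : SR f, algebraMap (SR f) (CR (gg ω (∏ i, φ' i) b')) z =
      red (algebraMap B[X] L') hF z := fun z => rfl
  have hinjr : Function.Injective (algebraMap (SR f) (CR (gg ω (∏ i, φ' i) b'))) :=
    red_inj _ hF (IsFractionRing.injective B[X] L')
  have htf : Module.IsTorsionFree (SR f) (CR (gg ω (∏ i, φ' i) b')) :=
    Module.isTorsionFree_iff_algebraMap_injective.mpr hinjr
  have hext := extended_injective (B := CR (gg ω (∏ i, φ' i) b')) (Sm f) (sm_factors hf hodd) sm_le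
  have hmi : Function.Injective (Polynomial.map (algebraMap B[X] L')) :=
    Polynomial.map_injective _ (IsFractionRing.injective B[X] L')
  -- the factorization of `f - c ^ 2`
  have hfac : ∀ i, f = φB i * (∏ j ∈ Finset.univ.erase i, φB j) + c * c := by
    intro i
    rw [Finset.mul_prod_erase _ _ (Finset.mem_univ i)]
    apply hmi
    rw [Polynomial.map_add, Polynomial.map_mul, hc, Polynomial.map_prod, ← hF]
    unfold gg
    rw [up_prod, sq]
    congr 1
    exact Finset.prod_congr rfl fun j _ => (hφB j).symm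
  -- surjectivity
  have hrange : (ClassGroup.extendedHom (SR f) (CR (gg ω (∏ i, φ' i) b'))).range = ⊤ := by
    refine gen2 h2' hω hL hD hb _ fun 𝔭 h0 hp hmem => ?_
    have h3 : (pp (up (∏ i, φ' i)) : CR (gg ω (∏ i, φ' i) b')) ∈ 𝔭 := by
      rw [← sg_ta]
      exact 𝔭.mul_mem_right _ hmem
    rw [up_prod, map_prod] at h3
    obtain ⟨i, -, hi⟩ := (hp.prod_mem_iff).1 h3
    have hpc := prime_over (irr_up hω hL (hφ i) (hm i)) hp hi hmem
    have hmm : 𝔭 = (pi3 f (φB i) c).map (algebraMap (SR f) (CR (gg ω (∏ i, φ' i) b'))) := by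
      rw [hpc]
      unfold pi3
      rw [Ideal.map_span, Set.image_pair, hal, hal,
        map_sub (red (algebraMap B[X] L') hF) (yq f), red_pq, red_pq, red_yq, hφB, hc]
      rfl
    have hφ0 : φB i ≠ 0 := by
      intro h1
      have h5 := hφB i
      rw [h1, Polynomial.map_zero] at h5
      exact (irr_up hω hL (hφ i) (hm i)).ne_zero h5.symm
    have hne : (pq (φB i) : SR f) ≠ 0 := by
      intro h1
      exact hφ0 (pq_inj (h1.trans (map_zero pq).symm))
    have h4 := pi3_mul (v := (2 : B)⁻¹) (inv_mul_cancel₀ h2) (hfac i) hs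
    have h5 : (pi3 f (φB i) c).map (algebraMap (SR f) (CR (gg ω (∏ i, φ' i) b'))) ∈
        (Ideal (CR (gg ω (∏ i, φ' i) b')))⁰ := by
      rw [← hmm]
      exact h0
    have h6 := mem_range hne h4 h5
    have h7 : (⟨𝔭, h0⟩ : (Ideal (CR (gg ω (∏ i, φ' i) b')))⁰) = ⟨_, h5⟩ := Subtype.ext hmm
    rw [h7]
    exact h6
  have hsurj : Function.Surjective
      (ClassGroup.extendedHom (SR f) (CR (gg ω (∏ i, φ' i) b'))) :=
    MonoidHom.range_eq_top.1 hrange
  let e := MulEquiv.ofBijective _ ⟨hext, hsurj⟩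
  let e' : Additive (ClassGroup (SR f)) ≃ₗ[ℤ]
      Additive (ClassGroup (CR (gg ω (∏ i, φ' i) b'))) := (MulEquiv.toAdditive e).toIntLinearEquiv
  refine ⟨Module.Free.of_equiv e'.symm, Module.Finite.equiv e'.symm, ?_⟩
  rw [LinearEquiv.finrank_eq e', k3]

end

end Pool.Agent.X293.QS
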