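import Pool.Agent.X293.QS.Sm
import Pool.Agent.Y707.SF.Fin

/-! The traces of the members: local bounds. -/

set_option autoImplicit false
set_option maxHeartbeats 400000

namespace Pool.Agent.X293.QS

open Polynomial Finset NumberField
open Pool.Agent.Y707.PC Pool.Agent.Y707.SF
open Pool.Agent.Y707.DK (IsQuadPencil memberQuad traceOne dpoly nr dd numFactors)

section
variable {K : Type} [Field K] [NumberField K] {k l r g n : ℕ}
  {G : Fin l → MvPolynomial (Fin k) (𝓞 K)}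
  {D₀ : (𝓞 K)[X]} {δ : Fin r → (MvPolynomial (Fin k) (𝓞 K))[X]}
  {b : (MvPolynomial (Fin k) (𝓞 K))[X][X]}

/-- the data of the slices -/
theorem isQuad1 (h : IsQuadSurface g n G D₀ δ b) : IsQuadPencil g (G1 G) D₀ (α1 δ) (a1 b) where
  independent := indep1 h.independent
  monic := h.monic
  separable := h.separable
  degree := h.degree
  distinct := alpha1_inj h.distinct
  nonzero := fun j h0 => by
    apply h.nonzero j
    apply (sg (𝓞 K) k).injective
    rw [map_zero, ← h0]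
    have h1 := eval_map_apply (f := (sg (𝓞 K) k : (MvPolynomial (Fin k) (𝓞 K))[X] →+*
      MvPolynomial (Fin (k + 1)) (𝓞 K)))
      (p := (D₀.map (C.comp MvPolynomial.C) : (MvPolynomial (Fin k) (𝓞 K))[X][X])) (δ j)
    have e : (sg (𝓞 K) k : (MvPolynomial (Fin k) (𝓞 K))[X] →+*
        MvPolynomial (Fin (k + 1)) (𝓞 K)).comp (C.comp MvPolynomial.C) = MvPolynomial.C :=
      RingHom.ext fun z => sg_CC z
    rw [Polynomial.map_map, e] at h1
    exact h1.symm
  small := natDegree_map_le.trans h.small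

end

section
variable {K : Type} [Field K] [NumberField K] {k l r g n : ℕ}
  {G : Fin l → MvPolynomial (Fin k) (𝓞 K)}
  {D₀ : (𝓞 K)[X]} {δ : Fin r → (MvPolynomial (Fin k) (𝓞 K))[X]}
  {b : (MvPolynomial (Fin k) (𝓞 K))[X][X]} {κ : Type} [Field κ]

variable (D₀ δ b) in
/-- the slices -/
noncomputable def sliceQ (φ : 𝓞 K →+* κ) (x : Fin k → κ) (t w : κ) : κ[X] :=
  memberQuad D₀ (α1 δ) (a1 b) φ (Fin.cons t x : Fin (k + 1) → κ) w

theorem sliceS (φ : 𝓞 K →+* κ) (x : Fin k → κ) (t w : κ) :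
    (memberS D₀ δ b φ x w).map (evalRingHom t) = sliceQ D₀ δ b φ x t w := by
  set ψ := MvPolynomial.eval₂Hom φ x with hψ
  set ψ' := MvPolynomial.eval₂Hom φ (Fin.cons t x : Fin (k + 1) → κ) with hψ'
  have h : (evalRingHom t).comp (mapRingHom ψ) = ψ'.comp
        (sg (𝓞 K) k : (MvPolynomial (Fin k) (𝓞 K))[X] →+* MvPolynomial (Fin (k + 1)) (𝓞 K)) :=
    RingHom.ext fun P => (sg_eval φ t x P).symm
  have e1 : (evalRingHom t).comp ((C.comp ψ).comp MvPolynomial.C) = ψ'.comp MvPolynomial.C := by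
    ext z : 1
    show (C (ψ (MvPolynomial.C z)) : κ[X]).eval t = ψ' (MvPolynomial.C z)
    rw [eval_C, hψ, hψ', MvPolynomial.eval₂Hom_C, MvPolynomial.eval₂Hom_C]
  have e2 : ∀ j, (evalRingHom t) ((δ j).map ψ) = ψ' (α1 δ j) := fun j => RingHom.congr_fun h (δ j)
  have e3 : (evalRingHom t) (C w) = w := by rw [coe_evalRingHom, eval_C]
  have e4 : (∏ j, (X - C ((δ j).map ψ)) : κ[X][X]).map (evalRingHom t) =
      ∏ j, (X - C (ψ' (α1 δ j))) := by
    rw [Polynomial.map_prod]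
    refine prod_congr rfl fun j _ => ?_
    rw [Polynomial.map_sub, Polynomial.map_X, Polynomial.map_C, e2]
  have e5 : (b.map (mapRingHom ψ)).map (evalRingHom t) = (a1 b).map ψ' := by
    unfold a1
    rw [Polynomial.map_map, h, Polynomial.map_map]
  have e6 : (quadS D₀ δ b ψ w).map (evalRingHom t) =
      D₀.map (ψ'.comp MvPolynomial.C) * ∏ j, (X - C (ψ' (α1 δ j))) +
        (C w + (a1 b).map ψ') ^ 2 := by
    unfold quadS
    rw [Polynomial.map_add, Polynomial.map_mul, Polynomial.map_pow, Polynomial.map_add, e4, e5,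
      Polynomial.map_map, e1, Polynomial.map_C, e3]
  exact e6

theorem slice_evalS (φ : 𝓞 K →+* κ) (x : Fin k → κ) (t w z : κ) :
    (memberS D₀ δ b φ x w).evalEval t z = (sliceQ D₀ δ b φ x t w).eval z := by
  rw [← sliceS, map_evalRingHom_eval]

variable [Fintype κ]

variable (g n D₀ δ b) in
/-- the sum over the fibre at infinity -/
noncomputable def miS (φ : 𝓞 K →+* κ) (x : Fin k → κ) (w : κ) : ℝ :=
  ∑ z : κ, ch ((atInfinity g n (memberS D₀ δ b φ x w)).eval z)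

theorem trS_eq (h2 : ringChar κ ≠ 2) (φ : 𝓞 K →+* κ) (x : Fin k → κ) (w : κ) :
    traceTwo g n (memberS D₀ δ b φ x w) = -∑ t : κ, traceOne (sliceQ D₀ δ b φ x t w) +
      miS g n D₀ δ b φ x w + 2 * Fintype.card κ := by
  rw [traceTwo_eq h2]
  simp only [slice_evalS, Pool.Agent.Y707.DK.traceOne_eq h2]
  rw [sum_neg_distrib, neg_neg]
  rfl

omit [NumberField K] in
theorem miS_abs (h : IsQuadSurface g n G D₀ δ b) (h2 : ringChar κ ≠ 2) (φ : 𝓞 K →+* κ)
    (x : Fin k → κ) (w : κ) :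
    |miS g n D₀ δ b φ x w| ≤ 2 * g * Real.sqrt (Fintype.card κ) := by
  have h3 := quadS_deg (δ := δ) (b := b) h.monic h.degree h.small (MvPolynomial.eval₂Hom φ x) w
  have h4 := atInfinity_monic (g := g) (n := n) h3.1 h3.2
  exact weil_odd h2 h4.1 h4.2

theorem trS_abs (h : IsQuadSurface g n G D₀ δ b) (h2 : ringChar κ ≠ 2) (φ : 𝓞 K →+* κ)
    (x : Fin k → κ) (w : κ) : |traceTwo g n (memberS D₀ δ b φ x w)| ≤
      (4 * g + 2) * (Fintype.card κ * Real.sqrt (Fintype.card κ)) := by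
  rw [trS_eq h2]
  obtain ⟨hr1, hr2, hr3⟩ := sqrt_facts κ
  have h1 : |-∑ t : κ, traceOne (sliceQ D₀ δ b φ x t w)| ≤
      Fintype.card κ * (2 * g * Real.sqrt (Fintype.card κ)) := by
    rw [abs_neg]
    refine (abs_sum_le_sum_abs _ _).trans ((sum_le_sum fun t _ =>
      Pool.Agent.Y707.DK.trQ_abs (isQuad1 h) h2 φ (Fin.cons t x : Fin (k + 1) → κ) w).trans ?_)
    rw [sum_const, card_univ, nsmul_eq_mul]
  have h3 := miS_abs h h2 φ x w
  set s := Real.sqrt (Fintype.card κ) with hs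
  set q : ℝ := (Fintype.card κ : ℝ) with hq
  have hg : (0 : ℝ) ≤ g := Nat.cast_nonneg g
  have h4 : |-∑ t : κ, traceOne (sliceQ D₀ δ b φ x t w) + miS g n D₀ δ b φ x w + 2 * q| ≤
      q * (2 * g * s) + 2 * g * s + 2 * q := by
    refine (abs_add_le _ _).trans (add_le_add ((abs_add_le _ _).trans (add_le_add h1 h3)) ?_)
    rw [abs_of_nonneg (by positivity)]
  refine h4.trans ?_
  have h5 : s ≤ q * s := by nlinarith
  have h6 : q ≤ q * s := by nlinarith
  have h7 := mul_le_mul_of_nonneg_left h5 (by positivity : (0 : ℝ) ≤ 2 * g)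
  nlinarith

variable (D₀ δ) in
open Classical in
/-- the number of the roots of the slice -/
noncomputable def nt (φ : 𝓞 K →+* κ) (x : Fin k → κ) (t : κ) : ℕ :=
  (univ.filter fun z => (dpoly D₀ (α1 δ) (MvPolynomial.eval₂Hom φ
    (Fin.cons t x : Fin (k + 1) → κ))).eval z = 0).card

theorem sum_slice (h2 : ringChar κ ≠ 2) (φ : 𝓞 K →+* κ) (x : Fin k → κ) (t : κ) :
    ∑ w : κ, traceOne (sliceQ D₀ δ b φ x t w) = Fintype.card κ * (1 - (nt D₀ δ φ x t : ℝ)) := by
  classical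
  have h := Pool.Agent.Y707.DK.sum_w (D₀ := D₀) (δ := α1 δ) (b := a1 b) h2 φ
    (Fin.cons t x : Fin (k + 1) → κ)
  unfold sliceQ nt
  convert h using 4

omit [NumberField K] in
theorem nt_le (h : IsQuadSurface g n G D₀ δ b) (φ : 𝓞 K →+* κ) (x : Fin k → κ) (t : κ) :
    (nt D₀ δ φ x t : ℝ) ≤ 2 * g + 1 := by
  classical
  have h1 := Pool.Agent.Y707.DK.dpoly_deg (δ := α1 δ) h.monic h.degree
    (MvPolynomial.eval₂Hom φ (Fin.cons t x : Fin (k + 1) → κ))
  have h2 := card_zeros h1.1.ne_zero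
  rw [h1.2] at h2
  unfold nt
  push_cast at h2
  convert h2 using 3

variable (D₀ δ) in
/-- the polynomial of the bad slices -/
noncomputable def P2 : (MvPolynomial (Fin k) (𝓞 K))[X] := (sg (𝓞 K) k).symm (dd D₀ (α1 δ))

theorem P2_ne (h : IsQuadSurface g n G D₀ δ b) : P2 D₀ δ ≠ 0 := by
  intro h0
  apply Pool.Agent.Y707.DK.dd_ne (isQuad1 h)
  exact (sg (𝓞 K) k).symm.injective (by rw [map_zero]; exact h0)

theorem nt_eq (φ : 𝓞 K →+* κ) (x : Fin k → κ) (t : κ)
    (ht : ((P2 D₀ δ).map (MvPolynomial.eval₂Hom φ x)).eval t ≠ 0) :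
    nt D₀ δ φ x t = nr D₀ φ + r := by
  classical
  have h := Pool.Agent.Y707.DK.card_dpoly (D₀ := D₀) (δ := α1 δ) φ
    (Fin.cons t x : Fin (k + 1) → κ) (by
      rw [← sg_eval, P2, RingEquiv.apply_symm_apply] at ht
      exact ht)
  unfold nt
  convert h using 2

open Classical in
/-- the sum over the slices -/
theorem sum_nt (h : IsQuadSurface g n G D₀ δ b) (φ : 𝓞 K →+* κ) (x : Fin k → κ)
    (hP : (P2 D₀ δ).map (MvPolynomial.eval₂Hom φ x) ≠ 0) :
    |∑ t : κ, ((nt D₀ δ φ x t : ℝ) - ((nr D₀ φ : ℝ) + r))| ≤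
      (P2 D₀ δ).natDegree * (2 * g + 1) := by
  have hnr : (nr D₀ φ : ℝ) + r ≤ 2 * g + 1 := by
    have h3 : (nr D₀ φ : ℝ) ≤ D₀.natDegree := by
      exact_mod_cast Pool.Agent.Y707.DK.nr_le h.monic φ
    have h4 : (D₀.natDegree : ℝ) + r = 2 * g + 1 := by exact_mod_cast h.degree
    linarith
  have h5 : ∀ t : κ, |(nt D₀ δ φ x t : ℝ) - ((nr D₀ φ : ℝ) + r)| ≤
      if ((P2 D₀ δ).map (MvPolynomial.eval₂Hom φ x)).eval t = 0 then ((2 : ℝ) * g + 1) else 0 := by
    intro t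
    split_ifs with h0
    · have h6 := nt_le h φ x t
      have h7 : (0 : ℝ) ≤ nt D₀ δ φ x t := Nat.cast_nonneg _
      have h8 : (0 : ℝ) ≤ (nr D₀ φ : ℝ) + r := by positivity
      rw [abs_le]
      constructor <;> linarith
    · rw [nt_eq φ x t h0]
      push_cast
      rw [sub_self, abs_zero]
  refine (abs_sum_le_sum_abs _ _).trans ((sum_le_sum fun t _ => h5 t).trans ?_)
  rw [← sum_filter, sum_const, nsmul_eq_mul]
  refine mul_le_mul_of_nonneg_right ?_ (by positivity)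
  refine (card_zeros hP).trans ?_
  exact_mod_cast natDegree_map_le

open Classical in
/-- the members which are not smooth -/
theorem sum_badS (h : IsQuadSurface g n G D₀ δ b) (h2 : ringChar κ ≠ 2) (φ : 𝓞 K →+* κ)
    {D : (MvPolynomial (Fin k) (𝓞 K))[X]}
    (hD1 : C (C D) ∈ Ideal.span {familyS D₀ δ b, derivative (familyS D₀ δ b), dt (familyS D₀ δ b)})
    (hD2 : C D ∈ Ideal.span {atInfinity g n (familyS D₀ δ b),
      derivative (atInfinity g n (familyS D₀ δ b))})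
    (x : Fin k → κ) (hD : D.map (MvPolynomial.eval₂Hom φ x) ≠ 0) :
    |∑ w : κ, (if IsSmoothSurface g n (memberS D₀ δ b φ x w) then 0 else
      traceTwo g n (memberS D₀ δ b φ x w))| ≤
      D.natDegree * ((4 * g + 2) * (Fintype.card κ * Real.sqrt (Fintype.card κ))) := by
  have h20 : (2 : κ) ≠ 0 := Ring.two_ne_zero h2
  have h5 : ∀ w : κ, |if IsSmoothSurface g n (memberS D₀ δ b φ x w) then 0 else
      traceTwo g n (memberS D₀ δ b φ x w)| ≤
      if (D.map (MvPolynomial.eval₂Hom φ x)).eval w = 0 then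
        ((4 * g + 2) * (Fintype.card κ * Real.sqrt (Fintype.card κ))) else 0 := by
    intro w
    split_ifs with h0 h1 h1
    · rw [abs_zero]
      positivity
    · rw [abs_zero]
    · exact trS_abs h h2 φ x w
    · exact (h0 (smooth_memberS h20 h hD1 hD2 (MvPolynomial.eval₂Hom φ x) w h1)).elim
  refine (abs_sum_le_sum_abs _ _).trans ((sum_le_sum fun t _ => h5 t).trans ?_)
  rw [← sum_filter, sum_const, nsmul_eq_mul]
  refine mul_le_mul_of_nonneg_right ?_ (by positivity)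
  refine (card_zeros hD).trans ?_
  exact_mod_cast natDegree_map_le

open Classical in
variable (g n D₀ δ b) in
/-- the sum over the smooth members -/
noncomputable def smS (φ : 𝓞 K →+* κ) (x : Fin k → κ) : ℝ :=
  ∑ w : κ, if IsSmoothSurface g n (memberS D₀ δ b φ x w) then
    traceTwo g n (memberS D₀ δ b φ x w) else 0

theorem local_smallS (h : IsQuadSurface g n G D₀ δ b) (h2 : ringChar κ ≠ 2) (φ : 𝓞 K →+* κ)
    {D : (MvPolynomial (Fin k) (𝓞 K))[X]}
    (hD1 : C (C D) ∈ Ideal.span {familyS D₀ δ b, derivative (familyS D₀ δ b), dt (familyS D₀ δ b)})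
    (hD2 : C D ∈ Ideal.span {atInfinity g n (familyS D₀ δ b),
      derivative (atInfinity g n (familyS D₀ δ b))})
    (x : Fin k → κ) (hD : D.map (MvPolynomial.eval₂Hom φ x) ≠ 0)
    (hP : (P2 D₀ δ).map (MvPolynomial.eval₂Hom φ x) ≠ 0) :
    |smS g n D₀ δ b φ x - ((nr D₀ φ : ℝ) + r + 1) * (Fintype.card κ : ℝ) ^ 2| ≤
      ((P2 D₀ δ).natDegree * (2 * g + 1) + 2 * g + D.natDegree * (4 * g + 2)) *
        (Fintype.card κ * Real.sqrt (Fintype.card κ)) := by
  classical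
  obtain ⟨hr1, hr2, hr3⟩ := sqrt_facts κ
  have b1 := sum_nt h φ x hP
  have b3 := sum_badS h h2 φ hD1 hD2 x hD
  have b2 : |∑ w : κ, miS g n D₀ δ b φ x w| ≤
      Fintype.card κ * (2 * g * Real.sqrt (Fintype.card κ)) := by
    refine (abs_sum_le_sum_abs _ _).trans ((sum_le_sum fun w _ => miS_abs h h2 φ x w).trans ?_)
    rw [sum_const, card_univ, nsmul_eq_mul]
  have e1 : smS g n D₀ δ b φ x = ∑ w : κ, traceTwo g n (memberS D₀ δ b φ x w) -
      ∑ w : κ, (if IsSmoothSurface g n (memberS D₀ δ b φ x w) then 0 else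
      traceTwo g n (memberS D₀ δ b φ x w)) := by
    unfold smS
    rw [← sum_sub_distrib]
    refine sum_congr rfl fun w _ => ?_
    split_ifs
    · rw [sub_zero]
    · rw [sub_self]
  have e2 : ∑ w : κ, traceTwo g n (memberS D₀ δ b φ x w) =
      (Fintype.card κ : ℝ) * ∑ t : κ, ((nt D₀ δ φ x t : ℝ) - ((nr D₀ φ : ℝ) + r)) +
        ∑ w : κ, miS g n D₀ δ b φ x w +
        ((nr D₀ φ : ℝ) + r + 1) * (Fintype.card κ : ℝ) ^ 2 := by
    simp only [trS_eq h2]
    rw [sum_add_distrib, sum_add_distrib, sum_const, card_univ, nsmul_eq_mul, sum_neg_distrib,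
      sum_comm]
    simp only [sum_slice h2]
    rw [← mul_sum, sum_sub_distrib, sum_sub_distrib, sum_const, sum_const, card_univ, nsmul_eq_mul,
      nsmul_eq_mul]
    ring
  have e3 : smS g n D₀ δ b φ x - ((nr D₀ φ : ℝ) + r + 1) * (Fintype.card κ : ℝ) ^ 2 =
      (Fintype.card κ : ℝ) * ∑ t : κ, ((nt D₀ δ φ x t : ℝ) - ((nr D₀ φ : ℝ) + r)) +
        ∑ w : κ, miS g n D₀ δ b φ x w -
      ∑ w : κ, (if IsSmoothSurface g n (memberS D₀ δ b φ x w) then 0 else
      traceTwo g n (memberS D₀ δ b φ x w)) := by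
    rw [e1, e2]
    ring
  rw [e3]
  set s := Real.sqrt (Fintype.card κ) with hs
  set q : ℝ := (Fintype.card κ : ℝ) with hq
  have hq0 : 0 ≤ q := by linarith
  have b4 : |q * ∑ t : κ, ((nt D₀ δ φ x t : ℝ) - ((nr D₀ φ : ℝ) + r))| ≤
      ((P2 D₀ δ).natDegree * (2 * g + 1)) * (q * s) := by
    rw [_root_.abs_mul, abs_of_nonneg hq0]
    refine (mul_le_mul_of_nonneg_left b1 hq0).trans ?_
    rw [mul_comm]
    refine mul_le_mul_of_nonneg_left ?_ (by positivity)
    nlinarith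
  refine ((abs_sub _ _).trans (add_le_add ((abs_add_le _ _).trans (add_le_add b4 b2)) b3)).trans ?_
  refine le_of_eq ?_
  ring

theorem local_largeS (h : IsQuadSurface g n G D₀ δ b) (h2 : ringChar κ ≠ 2) (φ : 𝓞 K →+* κ)
    (x : Fin k → κ) :
    |smS g n D₀ δ b φ x| + ((nr D₀ φ : ℝ) + r + 1) * (Fintype.card κ : ℝ) ^ 2 ≤
      (6 * g + 4) * (Fintype.card κ * Real.sqrt (Fintype.card κ)) * Fintype.card κ := by
  classical
  obtain ⟨hr1, hr2, hr3⟩ := sqrt_facts κ
  have h1 : |smS g n D₀ δ b φ x| ≤ Fintype.card κ *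
      ((4 * g + 2) * (Fintype.card κ * Real.sqrt (Fintype.card κ))) := by
    unfold smS
    have h5 : ∀ w : κ, |if IsSmoothSurface g n (memberS D₀ δ b φ x w) then
        traceTwo g n (memberS D₀ δ b φ x w) else 0| ≤
        (4 * g + 2) * (Fintype.card κ * Real.sqrt (Fintype.card κ)) := by
      intro w
      split_ifs
      · exact trS_abs h h2 φ x w
      · rw [abs_zero]
        positivity
    refine (abs_sum_le_sum_abs _ _).trans ((sum_le_sum fun w _ => h5 w).trans ?_)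
    rw [sum_const, card_univ, nsmul_eq_mul]
  have hnr : (nr D₀ φ : ℝ) + r + 1 ≤ 2 * g + 2 := by
    have h3 : (nr D₀ φ : ℝ) ≤ D₀.natDegree := by
      exact_mod_cast Pool.Agent.Y707.DK.nr_le h.monic φ
    have h4 : (D₀.natDegree : ℝ) + r = 2 * g + 1 := by exact_mod_cast h.degree
    linarith
  set s := Real.sqrt (Fintype.card κ) with hs
  set q : ℝ := (Fintype.card κ : ℝ) with hq
  have h9 : q ^ 2 ≤ q * s * q := by nlinarith [mul_nonneg (by linarith : (0:ℝ) ≤ q) (by linarith : (0:ℝ) ≤ q)]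
  have h10 : ((nr D₀ φ : ℝ) + r + 1) * q ^ 2 ≤ (2 * g + 2) * (q * s * q) :=
    mul_le_mul hnr h9 (by positivity) (by positivity)
  nlinarith

omit [NumberField K] in
open Classical in
theorem sum_goodS (φ : 𝓞 K →+* κ) (h2 : ringChar κ ≠ 2) (T : (Fin k → κ) → κ → ℝ) :
    ∑ᶠ P ∈ goodS g n G D₀ δ b φ, T P.1 P.2.2 = ∑ x : Fin k → κ,
      if ∀ i, MvPolynomial.eval₂Hom φ x (G i) ≠ 0 then
      nx G φ x * ∑ w : κ, (if IsSmoothSurface g n (memberS D₀ δ b φ x w) then T x w else 0)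
      else 0 := by
  rw [finsum_mem_def, finsum_eq_sum_of_fintype]
  have h3 : (∑ P : (Fin k → κ) × (Fin l → κ) × κ, (goodS g n G D₀ δ b φ).indicator
      (fun P => T P.1 P.2.2) P) = ∑ z : (Fin k → κ) × (Fin l → κ) × κ, if ((∀ i, z.2.1 i ^ 2 =
        MvPolynomial.eval₂Hom φ z.1 (G i)) ∧ (∀ i, MvPolynomial.eval₂Hom φ z.1 (G i) ≠ 0) ∧
        IsSmoothSurface g n (memberS D₀ δ b φ z.1 z.2.2)) then T z.1 z.2.2 else 0 := by
    refine sum_congr rfl fun z _ => ?_
    rw [Set.indicator_apply]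
    refine if_congr ?_ rfl rfl
    unfold goodS
    rw [Set.mem_ofPred_eq]
    constructor
    · rintro ⟨h, hs⟩
      exact ⟨fun i => (h i).1, fun i h0 => (h i).2 (eq_zero_of_pow_eq_zero ((h i).1.trans h0)), hs⟩
    · rintro ⟨h, hG, hs⟩
      exact ⟨fun i => ⟨h i, fun h0 => hG i (by rw [← h i, h0, zero_pow two_ne_zero])⟩, hs⟩
  rw [h3, Fintype.sum_prod_type]
  refine sum_congr rfl fun x _ => ?_
  rw [Fintype.sum_prod_type]
  by_cases hG : ∀ i, MvPolynomial.eval₂Hom φ x (G i) ≠ 0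
  · rw [if_pos hG, nx, ← card_sqrts h2, sum_mul]
    refine sum_congr rfl fun y _ => ?_
    rw [mul_sum]
    refine sum_congr rfl fun w _ => ?_
    by_cases h4 : ∀ i, y i ^ 2 = MvPolynomial.eval₂Hom φ x (G i)
    · rw [if_pos h4, one_mul]
      by_cases h5 : IsSmoothSurface g n (memberS D₀ δ b φ x w)
      · rw [if_pos h5, if_pos ⟨h4, hG, h5⟩]
      · rw [if_neg h5, if_neg fun h => h5 h.2.2]
    · rw [if_neg h4, zero_mul, if_neg fun h => h4 h.1]
  · rw [if_neg hG]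
    refine sum_eq_zero fun y _ => sum_eq_zero fun w _ => ?_
    rw [if_neg fun h => hG h.2.1]

end

end Pool.Agent.X293.QS
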