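import Pool.Agent.Y707.DK.Res

/-!
# Quadratic pencils of surfaces `Y ^ 2 = D₀(X) ∏ (X - δ_j(t)) + (w + b(t, X)) ^ 2`

The surfaces are fibred in hyperelliptic curves over the line with the coordinate `t`.  The coefficients
are functions on the variety `V` with the equations `y_i ^ 2 = G_i(x)`, polynomials in `x_1, …, x_k`.
-/

set_option autoImplicit false
set_option maxHeartbeats 400000

namespace Pool.Agent.X293.QS

open Polynomial NumberField IsDedekindDomain
open Pool.Agent.Y707.PC (IsConstSq valueAt)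
open Pool.Agent.Y707.SF (atInfinity HasWeight IsSmoothSurface traceTwo dt PicardRankAddTwo)
open Pool.Agent.Y707.DK (numFactors)

section
variable {K : Type} [Field K] {k l r : ℕ}

/-- The polynomial `D₀(X) ∏ (X - δ_j(x, t)) + (w + b(x, t, X)) ^ 2`, a polynomial in `X` whose coefficients
are polynomials in `t`, with the coefficients mapped by `ψ`. -/
noncomputable def quadS (D₀ : (𝓞 K)[X]) (δ : Fin r → (MvPolynomial (Fin k) (𝓞 K))[X])
    (b : (MvPolynomial (Fin k) (𝓞 K))[X][X]) {B : Type} [CommRing B]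
    (ψ : MvPolynomial (Fin k) (𝓞 K) →+* B) (w : B) : B[X][X] :=
  D₀.map ((C.comp ψ).comp MvPolynomial.C) * ∏ j, (X - C ((δ j).map ψ)) +
    (C (C w) + b.map (mapRingHom ψ)) ^ 2

/-- The generic member, a polynomial in `X` whose coefficients are polynomials in `t` with coefficients
in `𝓞_K[x][w]`. -/
noncomputable def familyS (D₀ : (𝓞 K)[X]) (δ : Fin r → (MvPolynomial (Fin k) (𝓞 K))[X])
    (b : (MvPolynomial (Fin k) (𝓞 K))[X][X]) : (MvPolynomial (Fin k) (𝓞 K))[X][X][X] :=
  quadS D₀ δ b (C : MvPolynomial (Fin k) (𝓞 K) →+* (MvPolynomial (Fin k) (𝓞 K))[X]) X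

/-- The conditions on the data: no product of some of the `G_i` is a constant times a square; `D₀` is
monic and separable; `D₀ ∏ (X - δ_j)` has degree `2 g + 1`; the `δ_j` are distinct polynomials in `t` of
degree at most `2 n`, and they are not roots of `D₀`; `b` has degree at most `g` in `X`, and the
coefficient of `X ^ i` has degree at most `n (2 g + 1 - 2 i)` in `t`; and the generic member `F` is smooth
with a smooth fibre over `t = ∞`: some nonzero `D` in `𝓞_K[x][w]` lies in the ideals of `F`, `∂F/∂X`,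
`∂F/∂t` and of `F_∞` and its derivative. -/
structure IsQuadSurface (g n : ℕ) (G : Fin l → MvPolynomial (Fin k) (𝓞 K)) (D₀ : (𝓞 K)[X])
    (δ : Fin r → (MvPolynomial (Fin k) (𝓞 K))[X]) (b : (MvPolynomial (Fin k) (𝓞 K))[X][X]) :
    Prop where
  independent : ∀ S : Finset (Fin l), S.Nonempty → ¬ IsConstSq (∏ i ∈ S, G i)
  positive : 1 ≤ n
  monic : D₀.Monic
  separable : (D₀.map (algebraMap (𝓞 K) K)).Separable
  degree : D₀.natDegree + r = 2 * g + 1
  weights : ∀ j, (δ j).natDegree ≤ 2 * n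
  distinct : Function.Injective δ
  nonzero : ∀ j, (D₀.map (C.comp MvPolynomial.C)).eval (δ j) ≠ 0
  small : b.natDegree ≤ g
  weight : ∀ i ≤ g, (b.coeff i).natDegree + 2 * n * i ≤ n * (2 * g + 1)
  smooth : ∃ D : (MvPolynomial (Fin k) (𝓞 K))[X], D ≠ 0 ∧
    C (C D) ∈ Ideal.span {familyS D₀ δ b, derivative (familyS D₀ δ b), dt (familyS D₀ δ b)} ∧
    C D ∈ Ideal.span {atInfinity g n (familyS D₀ δ b), derivative (atInfinity g n (familyS D₀ δ b))}

/-- The rank of the class group of the affine part: the number of the irreducible factors of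
`D₀ ∏ (X - δ_j)` over `E`, minus one. -/
noncomputable def rankS (r : ℕ) (D₀ : (𝓞 K)[X]) (E : IntermediateField K (AlgebraicClosure K)) : ℕ :=
  r + numFactors (D₀.map ((algebraMap K E).comp (algebraMap (𝓞 K) K))) - 1

/-- The generic member over `M(w)`, at the point `ξ` with coordinates in the field `M ⊇ E`. -/
noncomputable def genericS (D₀ : (𝓞 K)[X]) (δ : Fin r → (MvPolynomial (Fin k) (𝓞 K))[X])
    (b : (MvPolynomial (Fin k) (𝓞 K))[X][X]) (E : IntermediateField K (AlgebraicClosure K))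
    {M : Type} [Field M] [Algebra E M] (ξ : Fin k → M) : (RatFunc M)[X][X] :=
  quadS D₀ δ b ((algebraMap M (RatFunc M)).comp (valueAt E ξ)) RatFunc.X

/-- The member at the point `(x, w)` over the field `κ`. -/
noncomputable def memberS (D₀ : (𝓞 K)[X]) (δ : Fin r → (MvPolynomial (Fin k) (𝓞 K))[X])
    (b : (MvPolynomial (Fin k) (𝓞 K))[X][X]) {κ : Type} [Field κ] (φ : 𝓞 K →+* κ)
    (x : Fin k → κ) (w : κ) : κ[X][X] :=
  quadS D₀ δ b (MvPolynomial.eval₂Hom φ x) w

/-- The points `(x, y, w)` of `V × 𝔸¹` over the field `κ` with nonzero `y_i` over which the surface is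
smooth, with a smooth fibre over `t = ∞`. -/
def goodS (g n : ℕ) (G : Fin l → MvPolynomial (Fin k) (𝓞 K)) (D₀ : (𝓞 K)[X])
    (δ : Fin r → (MvPolynomial (Fin k) (𝓞 K))[X]) (b : (MvPolynomial (Fin k) (𝓞 K))[X][X])
    {κ : Type} [Field κ] (φ : 𝓞 K →+* κ) : Set ((Fin k → κ) × (Fin l → κ) × κ) :=
  {P | (∀ i, P.2.1 i ^ 2 = MvPolynomial.eval₂Hom φ P.1 (G i) ∧ P.2.1 i ≠ 0) ∧
    IsSmoothSurface g n (memberS D₀ δ b φ P.1 P.2.2)}

/-- The fibre average `q^{-(k + 1)} ∑ b(fibre)` of the traces on `H²` over the good points of the base,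
of dimension `k + 1`. -/
noncomputable def averageS (g n : ℕ) (G : Fin l → MvPolynomial (Fin k) (𝓞 K)) (D₀ : (𝓞 K)[X])
    (δ : Fin r → (MvPolynomial (Fin k) (𝓞 K))[X]) (b : (MvPolynomial (Fin k) (𝓞 K))[X][X])
    {κ : Type} [Field κ] (φ : 𝓞 K →+* κ) : ℝ :=
  ((Nat.card κ : ℝ) ^ (k + 1))⁻¹ *
    ∑ᶠ P ∈ goodS g n G D₀ δ b φ, traceTwo g n (memberS D₀ δ b φ P.1 P.2.2)

end

section
variable {K : Type} [Field K] {k l r g n : ℕ} {G : Fin l → MvPolynomial (Fin k) (𝓞 K)}
  {D₀ : (𝓞 K)[X]} {δ : Fin r → (MvPolynomial (Fin k) (𝓞 K))[X]}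
  {b : (MvPolynomial (Fin k) (𝓞 K))[X][X]}

theorem mapRingHom_comp' {A B D : Type} [CommRing A] [CommRing B] [CommRing D] (ψ : A →+* B)
    (θ : B →+* D) : (mapRingHom θ).comp (mapRingHom ψ) = mapRingHom (θ.comp ψ) :=
  RingHom.ext fun p => by
    rw [RingHom.comp_apply, coe_mapRingHom, coe_mapRingHom, coe_mapRingHom, Polynomial.map_map]

theorem quadS_map {B D : Type} [CommRing B] [CommRing D]
    (ψ : MvPolynomial (Fin k) (𝓞 K) →+* B) (w : B) (θ : B →+* D) :
    (quadS D₀ δ b ψ w).map (mapRingHom θ) = quadS D₀ δ b (θ.comp ψ) (θ w) := by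
  unfold quadS
  rw [Polynomial.map_add, Polynomial.map_mul, Polynomial.map_pow, Polynomial.map_add,
    Polynomial.map_prod, Polynomial.map_map, Polynomial.map_map, Polynomial.map_C,
    mapRingHom_comp']
  have e1 : (mapRingHom θ).comp ((C.comp ψ).comp MvPolynomial.C) =
      (C.comp (θ.comp ψ)).comp MvPolynomial.C := by
    ext z
    simp
  have e2 : (mapRingHom θ) (C w) = C (θ w) := by
    rw [coe_mapRingHom, Polynomial.map_C]
  rw [e1, e2]
  congr 2
  refine Finset.prod_congr rfl fun j _ => ?_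
  rw [Polynomial.map_sub, Polynomial.map_X, Polynomial.map_C, coe_mapRingHom, Polynomial.map_map]

theorem quadS_deg {B : Type} [CommRing B] [Nontrivial B] (hm : D₀.Monic)
    (hd : D₀.natDegree + r = 2 * g + 1) (hb : b.natDegree ≤ g)
    (ψ : MvPolynomial (Fin k) (𝓞 K) →+* B) (w : B) :
    (quadS D₀ δ b ψ w).Monic ∧ (quadS D₀ δ b ψ w).natDegree = 2 * g + 1 := by
  have h1 : (D₀.map ((C.comp ψ).comp MvPolynomial.C) : B[X][X]).Monic := hm.map _
  have h2 : (∏ j, (X - C ((δ j).map ψ)) : B[X][X]).Monic :=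
    monic_prod_of_monic _ _ fun i _ => monic_X_sub_C _
  have h3 : (D₀.map ((C.comp ψ).comp MvPolynomial.C) * ∏ j, (X - C ((δ j).map ψ)) :
      B[X][X]).natDegree = 2 * g + 1 := by
    rw [h1.natDegree_mul h2, hm.natDegree_map, natDegree_prod_of_monic _ _ fun i _ => monic_X_sub_C _]
    simp only [natDegree_X_sub_C, Finset.sum_const, Finset.card_univ, Fintype.card_fin, smul_eq_mul,
      mul_one]
    exact hd
  have h4 : ((C (C w) + b.map (mapRingHom ψ)) ^ 2 : B[X][X]).natDegree <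
      (D₀.map ((C.comp ψ).comp MvPolynomial.C) * ∏ j, (X - C ((δ j).map ψ)) :
      B[X][X]).natDegree := by
    rw [h3]
    have h4 : (C (C w) + b.map (mapRingHom ψ) : B[X][X]).natDegree ≤ g := by
      refine (natDegree_add_le _ _).trans (max_le (by rw [natDegree_C]; omega) ?_)
      exact natDegree_map_le.trans hb
    have h5 := natDegree_pow_le_of_le 2 h4
    omega
  constructor
  · exact (h1.mul h2).add_of_left (degree_lt_degree h4)
  · unfold quadS
    rw [natDegree_add_eq_left_of_natDegree_lt h4, h3]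

end

end Pool.Agent.X293.QS
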