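import Pool.Agent.X293.QS.Alg

/-! **The class group of the generic member.** -/

set_option autoImplicit false
set_option maxHeartbeats 400000

namespace Pool.Agent.X293.QS

open Polynomial NumberField Pool.Agent.TH943.HJ Pool.Agent.Y707.PC Pool.Agent.Y707.SF
open Pool.Agent.Y707.DK
open scoped nonZeroDivisors

section
variable {M : Type} [Field M]

theorem transc_t : Transcendental M (algebraMap M[X] (FractionRing M[X]) X) := by
  rintro ⟨p, hp0, hp⟩
  apply hp0
  rw [aeval_algebraMap_apply, aeval_X_left_apply] at hp
  exact (map_eq_zero_iff _ (IsFractionRing.injective M[X] (FractionRing M[X]))).1 hp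

theorem gen_t (z : FractionRing M[X]) : ∃ p q : M[X],
    aeval (algebraMap M[X] (FractionRing M[X]) X) q ≠ 0 ∧
    z * aeval (algebraMap M[X] (FractionRing M[X]) X) q =
      aeval (algebraMap M[X] (FractionRing M[X]) X) p := by
  obtain ⟨p, q, hq, rfl⟩ := IsFractionRing.div_surjective (A := M[X]) z
  have hq0 : algebraMap M[X] (FractionRing M[X]) q ≠ 0 := by
    rw [Ne, map_eq_zero_iff _ (IsFractionRing.injective M[X] _)]
    exact nonZeroDivisors.ne_zero hq
  refine ⟨p, q, ?_, ?_⟩
  · rw [aeval_algebraMap_apply, aeval_X_left_apply]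
    exact hq0
  · rw [aeval_algebraMap_apply, aeval_X_left_apply, aeval_algebraMap_apply, aeval_X_left_apply]
    exact div_mul_cancel₀ _ hq0

/-- irreducible polynomials over `M` stay irreducible over `M(t)` -/
theorem irr_t {p : M[X]} (hp : Irreducible p) (hm : p.Monic) :
    Irreducible ((p.map C : M[X][X]).map (algebraMap M[X] (FractionRing M[X]))) := by
  have h := irr_up (L := FractionRing M[X]) transc_t gen_t hp hm
  have e : (p.map C : M[X][X]).map (algebraMap M[X] (FractionRing M[X])) =
      (up p : (FractionRing M[X])[X]) := by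
    rw [up_def, Polynomial.map_map]
    rfl
  rw [e]
  exact h

variable [CharZero M] {ι : Type} [Fintype ι] {g : ℕ} {φM : ι → M[X][X]} {bM : M[X][X]}

/-- the polynomial of the surface over `M(w)` -/
noncomputable def surf2 (φM : ι → M[X][X]) (bM : M[X][X]) : (RatFunc M)[X][X] :=
  (∏ i, φM i).map (mapRingHom (algebraMap M (RatFunc M))) +
    (C (C RatFunc.X) + bM.map (mapRingHom (algebraMap M (RatFunc M)))) ^ 2

/-- **The class group over `M(w)`.** -/
theorem alg_ratfunc2 (hm : ∀ i, (φM i).Monic)
    (hirr : ∀ i, Irreducible ((φM i).map (algebraMap M[X] (FractionRing M[X]))))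
    (hinj : Function.Injective φM) (hd : (∏ i, φM i).natDegree = 2 * g + 1)
    (hb : bM.natDegree ≤ g)
    (hs : (1 : (RatFunc M)[X][X]) ∈ Ideal.span {surf2 φM bM, derivative (surf2 φM bM),
      dt (surf2 φM bM)}) :
    ∃ _ : IsDomain (SR (surf2 φM bM)),
    Module.Free ℤ (Additive (ClassGroup (SR (surf2 φM bM)))) ∧
    Module.Finite ℤ (Additive (ClassGroup (SR (surf2 φM bM)))) ∧
    Module.finrank ℤ (Additive (ClassGroup (SR (surf2 φM bM)))) = Fintype.card ι - 1 := by
  let B := RatFunc M
  let M' := FractionRing M[X]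
  let L' := FractionRing B[X]
  have hMB : Function.Injective (algebraMap M B) := (algebraMap M B).injective
  have hj0 : Function.Injective (mapRingHom (algebraMap M B)) := by
    intro p q hpq
    exact Polynomial.map_injective _ hMB hpq
  let _ : Algebra M' L' := (IsFractionRing.map (K := M') (L := L') hj0).toAlgebra
  have hcomp : ∀ p : M[X], algebraMap M' L' (algebraMap M[X] M' p) =
      algebraMap B[X] L' (p.map (algebraMap M B)) := fun p => by
    show IsFractionRing.map (K := M') (L := L') hj0 (algebraMap M[X] M' p) = _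
    unfold IsFractionRing.map
    rw [IsLocalization.map_eq]
    rfl
  have hBX : CharZero B := charZero_of_injective_algebraMap (algebraMap M B).injective
  have h2 : (2 : B) ≠ 0 := two_ne_zero
  let ω : L' := algebraMap B[X] L' (C (RatFunc.X : B))
  have hω : Transcendental M' ω := transc_w hcomp transc_X
  have hL := gen_w hcomp (w := (RatFunc.X : B)) ratfunc_hL
  let φ' : ι → M'[X] := fun i => (φM i).map (algebraMap M[X] M')
  let b' : M'[X] := bM.map (algebraMap M[X] M')
  have hinjM : Function.Injective (algebraMap M[X] M') := IsFractionRing.injective M[X] M'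
  have hM' : CharZero M' := charZero_of_injective_algebraMap hinjM
  have hm' : ∀ i, (φ' i).Monic := fun i => (hm i).map _
  have hprod : ∏ i, φ' i = (∏ i, φM i).map (algebraMap M[X] M') := (Polynomial.map_prod _ _ _).symm
  have hpm : (∏ i, φM i).Monic := monic_prod_of_monic _ _ fun i _ => hm i
  have hnd : (∏ i, φ' i).natDegree = 2 * g + 1 := by
    rw [hprod, hpm.natDegree_map, hd]
  have hodd : Odd (∏ i, φ' i).natDegree := by
    rw [hnd]
    exact ⟨g, rfl⟩
  have hb' : 2 * b'.natDegree < (∏ i, φ' i).natDegree := by
    rw [hnd]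
    have h3 : b'.natDegree ≤ bM.natDegree := natDegree_map_le
    omega
  have hsep := sep_gg (L := L') hω hodd hb'
  have hinj' : Function.Injective φ' := fun i j hij => hinj (Polynomial.map_injective _ hinjM hij)
  have hhom : (algebraMap B[X] L').comp (mapRingHom (algebraMap M B)) =
      (algebraMap M' L').comp (algebraMap M[X] M') := RingHom.ext fun p => (hcomp p).symm
  have hup : ∀ p : M[X][X], (p.map (mapRingHom (algebraMap M B))).map (algebraMap B[X] L') =
      up (p.map (algebraMap M[X] M')) := by
    intro p
    rw [up_def, Polynomial.map_map, Polynomial.map_map, hhom]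
  have hc : (C (C RatFunc.X) + bM.map (mapRingHom (algebraMap M B)) : B[X][X]).map
      (algebraMap B[X] L') = cc ω b' := by
    rw [Polynomial.map_add, Polynomial.map_C, hup]
    rfl
  have hF : gg ω (∏ i, φ' i) b' = (surf2 φM bM).map (algebraMap B[X] L') := by
    unfold surf2 gg
    rw [Polynomial.map_add, Polynomial.map_pow, hc, hup, hprod]
  -- the degree of the surface
  have hlt : ((C (C RatFunc.X) + bM.map (mapRingHom (algebraMap M B))) ^ 2 : B[X][X]).natDegree <
      ((∏ i, φM i).map (mapRingHom (algebraMap M B))).natDegree := by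
    rw [hpm.natDegree_map, hd]
    have h4 : (C (C RatFunc.X) + bM.map (mapRingHom (algebraMap M B)) : B[X][X]).natDegree ≤ g := by
      refine (natDegree_add_le _ _).trans (max_le (by rw [natDegree_C]; omega) ?_)
      exact natDegree_map_le.trans hb
    have h5 := natDegree_pow_le_of_le 2 h4
    omega
  have hfm : (surf2 φM bM).Monic := (hpm.map _).add_of_left (degree_lt_degree hlt)
  have hfd : (surf2 φM bM).natDegree = 2 * g + 1 := by
    unfold surf2
    rw [natDegree_add_eq_left_of_natDegree_lt hlt, hpm.natDegree_map, hd]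
  exact alg_surf2 (f := surf2 φM bM)
    (φB := fun i => (φM i).map (mapRingHom (algebraMap M B)))
    (c := C (C RatFunc.X) + bM.map (mapRingHom (algebraMap M B))) h2 hω hL hirr hm' hinj' hodd hb'
    hsep.squarefree hfm (by rw [hfd]; exact ⟨g, rfl⟩) hF (fun i => hup (φM i)) hc hs

end

section
variable {K : Type} [Field K] [NumberField K] {k l r g n : ℕ}
  {G : Fin l → MvPolynomial (Fin k) (𝓞 K)}
  {D₀ : (𝓞 K)[X]} {δ : Fin r → (MvPolynomial (Fin k) (𝓞 K))[X]}
  {b : (MvPolynomial (Fin k) (𝓞 K))[X][X]}

/-- **The generic surface.** -/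
theorem surface_algebraicS (h : IsQuadSurface g n G D₀ δ b)
    (E : IntermediateField K (AlgebraicClosure K)) {M : Type} [Field M] [Algebra E M]
    {ξ : Fin k → M} {η : Fin l → M} (hM : IsFunctionField G E ξ η) :
    IsSmoothSurface g n (genericS D₀ δ b E ξ) ∧
      PicardRankAddTwo (genericS D₀ δ b E ξ) (rankS r D₀ E) := by
  classical
  have hconst := constants h.independent E hM
  obtain ⟨hξ, -, -⟩ := hM
  set ι : 𝓞 K →+* E := (algebraMap K E).comp (algebraMap (𝓞 K) K) with hι
  have hιi : Function.Injective ι := (algebraMap K E).injective.comp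
    (IsFractionRing.injective (𝓞 K) K)
  have hmi : Function.Injective (MvPolynomial.map (σ := Fin k) ι) :=
    MvPolynomial.map_injective _ hιi
  have hinj : Function.Injective (MvPolynomial.aeval ξ : MvPolynomial (Fin k) E →ₐ[E] M) := hξ
  have hv : ∀ p, valueAt E ξ p = MvPolynomial.aeval ξ (MvPolynomial.map ι p) := by
    intro p
    rw [valueAt_eq]
    rfl
  have hvinj : Function.Injective (valueAt E ξ) := by
    intro p q h
    rw [hv, hv] at h
    exact hmi (hinj h)
  have hE0 : CharZero E := charZero_of_injective_algebraMap (algebraMap K E).injective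
  have hM0 : CharZero M := charZero_of_injective_algebraMap (algebraMap E M).injective
  have hB0 : CharZero (RatFunc M) := charZero_of_injective_algebraMap (algebraMap M _).injective
  have hvC : (valueAt E ξ).comp MvPolynomial.C = (algebraMap E M).comp ι := by
    ext z
    simp [valueAt, hι]
  have hsm : IsSmoothSurface g n (genericS D₀ δ b E ξ) := by
    obtain ⟨D, hD0, hD1, hD2⟩ := h.smooth
    refine smooth_memberS (B := RatFunc M) two_ne_zero h hD1 hD2
      ((algebraMap M (RatFunc M)).comp (valueAt E ξ)) RatFunc.X ?_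
    rw [← Polynomial.map_map, eval_map_algebraMap, aeval_RX, Ne,
      map_eq_zero_iff _ (IsFractionRing.injective M[X] (RatFunc M)),
      Polynomial.map_eq_zero_iff hvinj]
    exact hD0
  refine ⟨hsm, ?_⟩
  -- the factors
  have hmE : (D₀.map ι).Monic := h.monic.map _
  have hsE : (D₀.map ι).Separable := by
    rw [hι, ← Polynomial.map_map]
    exact h.separable.map
  obtain ⟨S, hS1, hS2, hS3⟩ := factors_spec hmE hsE.squarefree
  let I : Type := {j // j ∈ S} ⊕ Fin r
  let φ : I → M[X][X] := Sum.elim (fun j => (j.1.map (algebraMap E M)).map C)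
    (fun i => X - C ((δ i).map (valueAt E ξ)))
  have hφm : ∀ i, (φ i).Monic := by
    rintro (j | i)
    · exact ((hS1 j.1 j.2).2.1.map _).map _
    · exact monic_X_sub_C _
  have hφi : ∀ i, Irreducible ((φ i).map (algebraMap M[X] (FractionRing M[X]))) := by
    rintro (j | i)
    · exact irr_t (irreducible_const hconst (hS1 j.1 j.2).1 (hS1 j.1 j.2).2.1)
        ((hS1 j.1 j.2).2.1.map _)
    · show Irreducible ((X - C ((δ i).map (valueAt E ξ)) : M[X][X]).map _)
      rw [Polynomial.map_sub, Polynomial.map_X, Polynomial.map_C]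
      exact irreducible_X_sub_C _
  have hDC : (D₀.map (C.comp MvPolynomial.C) : (MvPolynomial (Fin k) (𝓞 K))[X][X]).map
      (mapRingHom (valueAt E ξ)) = ((D₀.map ι).map (algebraMap E M)).map C := by
    rw [Polynomial.map_map, Polynomial.map_map, Polynomial.map_map]
    congr 1
    ext z : 1
    show (mapRingHom (valueAt E ξ)) (C (MvPolynomial.C z)) = C (algebraMap E M (ι z))
    rw [coe_mapRingHom, Polynomial.map_C]
    exact congrArg C (RingHom.congr_fun hvC z)
  have hne : ∀ (j : {j // j ∈ S}) (i : Fin r),
      (j.1.map (algebraMap E M)).map C ≠ X - C ((δ i).map (valueAt E ξ)) := by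
    intro j i h0
    obtain ⟨c, hc⟩ := (hS1 j.1 j.2).2.2
    apply h.nonzero i
    apply Polynomial.map_injective _ hvinj
    have h1 := eval_map_apply (f := mapRingHom (valueAt E ξ))
      (p := (D₀.map (C.comp MvPolynomial.C) : (MvPolynomial (Fin k) (𝓞 K))[X][X])) (δ i)
    have h2 : (((D₀.map (C.comp MvPolynomial.C)).eval (δ i) :
        (MvPolynomial (Fin k) (𝓞 K))[X])).map (valueAt E ξ) =
        mapRingHom (valueAt E ξ) ((D₀.map (C.comp MvPolynomial.C)).eval (δ i)) := rfl
    rw [h2, ← h1, hDC, hc, Polynomial.map_mul, Polynomial.map_mul, h0, eval_mul, eval_sub, eval_X,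
      eval_C, coe_mapRingHom, sub_self, zero_mul, Polynomial.map_zero]
  have hφinj : Function.Injective φ := by
    rintro (j | i) (j' | i') hij
    · have h1 : (j.1.map (algebraMap E M)).map C = (j'.1.map (algebraMap E M)).map C := hij
      have h2 := Polynomial.map_injective _ (algebraMap E M).injective
        (Polynomial.map_injective _ C_injective h1)
      rw [Subtype.ext h2]
    · exact (hne j i' hij).elim
    · exact (hne j' i hij.symm).elim
    · have h1 : X - C ((δ i).map (valueAt E ξ)) = X - C ((δ i').map (valueAt E ξ)) := hij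
      have h2 := C_injective (sub_right_injective h1)
      rw [h.distinct (Polynomial.map_injective _ hvinj h2)]
  have hprod : ∏ i, φ i = ((D₀.map ι).map (algebraMap E M)).map C *
      ∏ j, (X - C ((δ j).map (valueAt E ξ))) := by
    rw [Fintype.prod_sum_type]
    congr 1
    rw [← hS2, Polynomial.map_prod, Polynomial.map_prod]
    exact Finset.prod_coe_sort S fun j => (j.map (algebraMap E M)).map C
  have hnd : (∏ i, φ i).natDegree = 2 * g + 1 := by
    have h1 : (((D₀.map ι).map (algebraMap E M)).map C : M[X][X]).Monic := (hmE.map _).map _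
    have h2 : (∏ j, (X - C ((δ j).map (valueAt E ξ))) : M[X][X]).Monic :=
      monic_prod_of_monic _ _ fun i _ => monic_X_sub_C _
    rw [hprod, h1.natDegree_mul h2, (hmE.map _).natDegree_map, hmE.natDegree_map,
      h.monic.natDegree_map, natDegree_prod_of_monic _ _ fun i _ => monic_X_sub_C _]
    simp only [natDegree_X_sub_C, Finset.sum_const, Finset.card_univ, Fintype.card_fin, smul_eq_mul,
      mul_one]
    exact h.degree
  have hgen : genericS D₀ δ b E ξ = surf2 φ (b.map (mapRingHom (valueAt E ξ))) := by
    have eb : (b.map (mapRingHom (valueAt E ξ))).map (mapRingHom (algebraMap M (RatFunc M))) =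
        b.map (mapRingHom ((algebraMap M (RatFunc M)).comp (valueAt E ξ))) := by
      rw [Polynomial.map_map, mapRingHom_comp']
    unfold genericS quadS surf2
    rw [eb, hprod, Polynomial.map_mul, Polynomial.map_prod, ← hDC, Polynomial.map_map,
      Polynomial.map_map]
    congr 2
    · congr 1
      ext z : 1
      show C ((algebraMap M (RatFunc M)) (valueAt E ξ (MvPolynomial.C z))) =
        mapRingHom (algebraMap M (RatFunc M)) (mapRingHom (valueAt E ξ) (C (MvPolynomial.C z)))
      rw [coe_mapRingHom, coe_mapRingHom, Polynomial.map_C, Polynomial.map_C]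
    · refine Finset.prod_congr rfl fun j _ => ?_
      rw [Polynomial.map_sub, Polynomial.map_X, Polynomial.map_C, coe_mapRingHom,
        Polynomial.map_map]
  have hs := hsm.finite
  rw [hgen] at hs ⊢
  obtain ⟨hdom, h1, h2, h3⟩ := alg_ratfunc2 (g := g) hφm hφi hφinj hnd
    (natDegree_map_le.trans h.small) hs
  refine ⟨hdom, h1, h2, h3.trans ?_⟩
  have hcard : Fintype.card I = S.card + r := by
    rw [Fintype.card_sum, Fintype.card_fin, Fintype.card_coe]
  rw [hcard, hS3]
  unfold rankS
  rw [add_comm, hι]

end

end Pool.Agent.X293.QS
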