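import Pool.Agent.X293.QS.Defs

/-! Weights, and smoothness of the members. -/

set_option autoImplicit false
set_option maxHeartbeats 400000

namespace Pool.Agent.X293.QS

open Polynomial NumberField IsDedekindDomain
open Pool.Agent.Y707.SF

section
variable {B : Type} [CommRing B] {n W W' : ℕ} {f h : B[X][X]}

/-- the nonzero coefficients of `f` satisfy `deg f_i + 2 n i ≤ W` -/
def HasWt (n W : ℕ) (f : B[X][X]) : Prop :=
  ∀ i, f.coeff i ≠ 0 → (f.coeff i).natDegree + 2 * n * i ≤ W

theorem HasWt.add (hf : HasWt n W f) (hh : HasWt n W h) : HasWt n W (f + h) := by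
  intro i hi
  rw [coeff_add] at hi ⊢
  have h3 := natDegree_add_le (f.coeff i) (h.coeff i)
  by_cases h1 : f.coeff i = 0
  · rw [h1, zero_add] at hi ⊢
    exact hh i hi
  by_cases h2 : h.coeff i = 0
  · rw [h2, add_zero] at hi ⊢
    exact hf i hi
  have h4 := hf i h1
  have h5 := hh i h2
  rcases le_total (f.coeff i).natDegree (h.coeff i).natDegree with h6 | h6
  · rw [max_eq_right h6] at h3
    omega
  · rw [max_eq_left h6] at h3
    omega

theorem HasWt.mul (hf : HasWt n W f) (hh : HasWt n W' h) : HasWt n (W + W') (f * h) := by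
  intro i hi
  rw [coeff_mul] at hi ⊢
  have key : (∑ x ∈ Finset.HasAntidiagonal.antidiagonal i, f.coeff x.1 * h.coeff x.2).natDegree ≤
      W + W' - 2 * n * i := by
    refine natDegree_sum_le_of_forall_le _ _ fun x hx => ?_
    rw [Finset.HasAntidiagonal.mem_antidiagonal] at hx
    by_cases h0 : f.coeff x.1 = 0 ∨ h.coeff x.2 = 0
    · have h1 : f.coeff x.1 * h.coeff x.2 = 0 := by
        rcases h0 with h | h
        · rw [h, zero_mul]
        · rw [h, mul_zero]
      rw [h1, natDegree_zero]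
      exact Nat.zero_le _
    · push Not at h0
      have h3 := hf x.1 h0.1
      have h4 := hh x.2 h0.2
      have h5 := natDegree_mul_le (p := f.coeff x.1) (q := h.coeff x.2)
      have h6 : 2 * n * i = 2 * n * x.1 + 2 * n * x.2 := by rw [← hx]; ring
      omega
  have h8 : 2 * n * i ≤ W + W' := by
    by_contra hcon
    push Not at hcon
    apply hi
    refine Finset.sum_eq_zero fun x hx => ?_
    rw [Finset.HasAntidiagonal.mem_antidiagonal] at hx
    by_contra h0
    have h1 : f.coeff x.1 ≠ 0 := left_ne_zero_of_mul h0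
    have h2 : h.coeff x.2 ≠ 0 := right_ne_zero_of_mul h0
    have h3 := hf x.1 h1
    have h4 := hh x.2 h2
    have h6 : 2 * n * i = 2 * n * x.1 + 2 * n * x.2 := by rw [← hx]; ring
    omega
  omega

theorem hasWt_of {N : ℕ} (hf : HasWeight n N f) : HasWt n (2 * n * N) f := by
  intro i hi
  exact hf.2 i ((le_natDegree_of_ne_zero hi).trans hf.1)

theorem hasWeight_of {N : ℕ} (hd : f.natDegree ≤ N) (hf : HasWt n (2 * n * N) f) :
    HasWeight n N f := by
  refine ⟨hd, fun i hi => ?_⟩
  by_cases h0 : f.coeff i = 0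
  · rw [h0, natDegree_zero, zero_add]
    exact Nat.mul_le_mul_left _ hi
  · exact hf i h0

end

section
variable {K : Type} [Field K] {k l r g n : ℕ} {G : Fin l → MvPolynomial (Fin k) (𝓞 K)}
  {D₀ : (𝓞 K)[X]} {δ : Fin r → (MvPolynomial (Fin k) (𝓞 K))[X]}
  {b : (MvPolynomial (Fin k) (𝓞 K))[X][X]}

theorem quadS_weight {B : Type} [CommRing B] [Nontrivial B] (h : IsQuadSurface g n G D₀ δ b)
    (ψ : MvPolynomial (Fin k) (𝓞 K) →+* B) (w : B) :
    HasWeight n (2 * g + 1) (quadS D₀ δ b ψ w) := by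
  refine hasWeight_of (quadS_deg h.monic h.degree h.small ψ w).2.le ?_
  have h1 : HasWeight n D₀.natDegree (D₀.map ((C.comp ψ).comp MvPolynomial.C) : B[X][X]) := by
    refine ⟨natDegree_map_le, fun i hi => ?_⟩
    rw [coeff_map]
    show ((C (ψ (MvPolynomial.C (D₀.coeff i))) : B[X])).natDegree + _ ≤ _
    rw [natDegree_C, zero_add]
    exact Nat.mul_le_mul_left _ hi
  have h2 := hasWeight_prod (Finset.univ : Finset (Fin r))
    (β := fun j => (δ j).map ψ) fun j => natDegree_map_le.trans (h.weights j)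
  rw [Finset.card_univ, Fintype.card_fin] at h2
  have h3 := hasWt_of (h1.mul h2)
  rw [h.degree] at h3
  have h4 : HasWt n (n * (2 * g + 1)) (C (C w) + b.map (mapRingHom ψ) : B[X][X]) := by
    refine HasWt.add ?_ ?_
    · intro i hi
      rw [coeff_C] at hi ⊢
      by_cases h0 : i = 0
      · rw [if_pos h0, natDegree_C, h0]
        omega
      · rw [if_neg h0] at hi
        exact (hi rfl).elim
    · intro i hi
      rw [coeff_map, coe_mapRingHom] at hi ⊢
      have hi' : i ≤ g := by
        by_contra hcon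
        apply hi
        rw [coeff_eq_zero_of_natDegree_lt (h.small.trans_lt (not_le.1 hcon)), Polynomial.map_zero]
      exact (Nat.add_le_add_right natDegree_map_le _).trans (h.weight i hi')
  have h5 := h4.mul h4
  unfold quadS
  refine HasWt.add h3 ?_
  rw [sq]
  have e : n * (2 * g + 1) + n * (2 * g + 1) = 2 * n * (2 * g + 1) := by ring
  rw [e] at h5
  exact h5

theorem family_mapS {B : Type} [CommRing B] (Θ : (MvPolynomial (Fin k) (𝓞 K))[X] →+* B) :
    (familyS D₀ δ b).map (mapRingHom Θ) = quadS D₀ δ b (Θ.comp C) (Θ X) :=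
  quadS_map _ _ Θ

/-- **Members at which `D` does not vanish are smooth.** -/
theorem smooth_memberS {B : Type} [Field B] (h2 : (2 : B) ≠ 0) (h : IsQuadSurface g n G D₀ δ b)
    {D : (MvPolynomial (Fin k) (𝓞 K))[X]}
    (hD1 : C (C D) ∈ Ideal.span {familyS D₀ δ b, derivative (familyS D₀ δ b), dt (familyS D₀ δ b)})
    (hD2 : C D ∈ Ideal.span {atInfinity g n (familyS D₀ δ b),
      derivative (atInfinity g n (familyS D₀ δ b))})
    (ψ : MvPolynomial (Fin k) (𝓞 K) →+* B) (w : B) (hD : (D.map ψ).eval w ≠ 0) :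
    IsSmoothSurface g n (quadS D₀ δ b ψ w) := by
  set Θ : (MvPolynomial (Fin k) (𝓞 K))[X] →+* B := eval₂RingHom ψ w with hΘ
  have hΘC : Θ.comp C = ψ := RingHom.ext fun p => by
    rw [hΘ, RingHom.comp_apply, coe_eval₂RingHom, eval₂_C]
  have hΘX : Θ X = w := by rw [hΘ, coe_eval₂RingHom, eval₂_X]
  have hfam : (familyS D₀ δ b).map (mapRingHom Θ) = quadS D₀ δ b ψ w := by
    rw [family_mapS, hΘC, hΘX]
  have hΘD : IsUnit (Θ D) := by
    rw [isUnit_iff_ne_zero, hΘ, coe_eval₂RingHom, ← eval_map]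
    exact hD
  obtain ⟨d1, d2⟩ := quadS_deg (δ := δ) (b := b) h.monic h.degree h.small ψ w
  refine ⟨isUnit_iff_ne_zero.2 h2, d1, d2, quadS_weight h ψ w, ?_, ?_⟩
  · have h1 := Ideal.mem_map_of_mem (mapRingHom (mapRingHom Θ)) hD1
    rw [Ideal.map_span, Set.image_insert_eq, Set.image_pair] at h1
    simp only [coe_mapRingHom, Polynomial.map_C] at h1
    rw [← dt_map, ← derivative_map, hfam] at h1
    have h3 : IsUnit (C (C (Θ D)) : B[X][X]) := (hΘD.map C).map C
    exact Ideal.eq_top_of_isUnit_mem _ h1 h3 ▸ Submodule.mem_top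
  · have h1 := Ideal.mem_map_of_mem (mapRingHom Θ) hD2
    rw [Ideal.map_span, Set.image_pair] at h1
    simp only [coe_mapRingHom, Polynomial.map_C] at h1
    rw [← derivative_map, ← atInfinity_map, hfam] at h1
    have h3 : IsUnit (C (Θ D) : B[X]) := hΘD.map C
    exact Ideal.eq_top_of_isUnit_mem _ h1 h3 ▸ Submodule.mem_top

end

end Pool.Agent.X293.QS
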